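import Pool.Agent.R126.Ix.Defs

set_option autoImplicit false

namespace Pool.Agent.R126.Ix

open scoped BigOperators Topology
open Set

universe u v w

section basics

variable {G : Type u} [Group G] {V : Type v} [MulAction G V] {W : Type w} [MulAction G W]

@[simp] theorem act_apply (g : G) (x : V → ℝ) (v : V) : act g x v = x (g⁻¹ • v) := rfl

theorem act_one (x : V → ℝ) : act (1 : G) x = x := by
  funext v; simp [act]

theorem act_mul (g h : G) (x : V → ℝ) : act (g * h) x = act g (act h x) := by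
  funext v; simp [act, mul_smul]

theorem sum_act [Fintype V] (g : G) (x : V → ℝ) : ∑ v, act g x v = ∑ v, x v :=
  Equiv.sum_comp (MulAction.toPerm g⁻¹ : V ≃ V) x

theorem act_mem [Fintype V] {K : SC V} [IsGSC G K] (g : G) {x : V → ℝ} (hx : x ∈ K.real) :
    act g x ∈ K.real := by
  obtain ⟨h0, h1, s, hs, hsup⟩ := hx
  refine ⟨fun v => h0 _, by rw [sum_act, h1], tr g s, IsGSC.tr_mem g s hs, fun v hv => ?_⟩
  rw [mem_tr]
  exact hsup _ hv

theorem continuous_act (g : G) : Continuous (act g : (V → ℝ) → (V → ℝ)) :=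
  continuous_pi fun v => continuous_apply _

variable [Fintype V] [Fintype W]

/-- The same as `CtsMap` with functions defined on the ambient space. -/
structure OnMap (G : Type u) [Group G] [MulAction G V] [MulAction G W] (K : SC V) (L : SC W)
    (f : (V → ℝ) → (W → ℝ)) : Prop where
  cont : ContinuousOn f K.real
  maps : ∀ x ∈ K.real, f x ∈ L.real
  equi : ∀ (g : G), ∀ x ∈ K.real, f (act g x) = act g (f x)

theorem ctsMap_of_onMap {K : SC V} {L : SC W} {f : (V → ℝ) → (W → ℝ)} (h : OnMap G K L f) :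
    CtsMap G K L := by
  refine ⟨fun x => ⟨f x, h.maps x x.2⟩, ?_, ?_⟩
  · exact Continuous.subtype_mk (continuousOn_iff_continuous_domRestrict.mp h.cont) _
  · intro g x y hy
    show f y = act g (f x)
    rw [hy, h.equi g x x.2]

theorem onMap_of_ctsMap {K : SC V} [IsGSC G K] {L : SC W} (h : CtsMap G K L) :
    ∃ f : (V → ℝ) → (W → ℝ), OnMap G K L f := by
  classical
  obtain ⟨f, hf, he⟩ := h
  let F : (V → ℝ) → (W → ℝ) := fun x => if hx : x ∈ K.real then (f ⟨x, hx⟩ : W → ℝ) else 0
  have hF : ∀ x (hx : x ∈ K.real), F x = f ⟨x, hx⟩ := fun x hx => dif_pos hx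
  refine ⟨F, ⟨?_, ?_, ?_⟩⟩
  · rw [continuousOn_iff_continuous_domRestrict]
    have : K.real.domRestrict F = fun x => (f x : W → ℝ) := by
      funext x
      exact hF x x.2
    rw [this]
    exact continuous_subtype_val.comp hf
  · intro x hx
    rw [hF x hx]
    exact (f ⟨x, hx⟩).2
  · intro g x hx
    rw [hF x hx, hF _ (act_mem g hx)]
    exact he g ⟨x, hx⟩ ⟨act g x, act_mem g hx⟩ rfl

theorem OnMap.comp {U : Type*} [MulAction G U] [Fintype U] {K : SC V} {L : SC W} {M : SC U}
    {f : (V → ℝ) → (W → ℝ)} {f' : (W → ℝ) → (U → ℝ)} (h : OnMap G K L f) (h' : OnMap G L M f') :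
    OnMap G K M (f' ∘ f) where
  cont := h'.cont.comp h.cont h.maps
  maps x hx := h'.maps _ (h.maps x hx)
  equi g x hx := by
    show f' (f (act g x)) = act g (f' (f x))
    rw [h.equi g x hx, h'.equi g _ (h.maps x hx)]

end basics

section push

variable {V : Type v} {W : Type w} [Fintype V]

open Classical in
/-- Push-forward of weights. -/
noncomputable def push (f : V → W) (x : V → ℝ) : W → ℝ := fun w => ∑ v, if f v = w then x v else 0

theorem continuous_push (f : V → W) : Continuous (push f : (V → ℝ) → (W → ℝ)) := by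
  classical
  refine continuous_pi fun w => continuous_finsetSum _ fun v _ => ?_
  by_cases h : f v = w
  · simp only [h, if_true]; exact continuous_apply v
  · simp only [h, if_false]; exact continuous_const

theorem push_nonneg {f : V → W} {x : V → ℝ} (hx : ∀ v, 0 ≤ x v) (w : W) : 0 ≤ push f x w := by
  classical
  refine Finset.sum_nonneg fun v _ => ?_
  split_ifs
  · exact hx v
  · exact le_rfl

theorem sum_push [Fintype W] (f : V → W) (x : V → ℝ) : ∑ w, push f x w = ∑ v, x v := by
  classical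
  unfold push
  rw [Finset.sum_comm]
  refine Finset.sum_congr rfl fun v _ => ?_
  rw [Finset.sum_ite_eq]
  simp

theorem push_ne_zero {f : V → W} {x : V → ℝ} {w : W} (h : push f x w ≠ 0) :
    ∃ v, f v = w ∧ x v ≠ 0 := by
  classical
  obtain ⟨v, -, hv⟩ := Finset.exists_ne_zero_of_sum_ne_zero h
  refine ⟨v, ?_⟩
  split_ifs at hv with h1
  · exact ⟨h1, hv⟩
  · exact absurd rfl hv

theorem push_act {G : Type u} [Group G] [MulAction G V] [MulAction G W] {f : V → W}
    (hf : ∀ (g : G) x, f (g • x) = g • f x) (g : G) (x : V → ℝ) :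
    push f (act g x) = act g (push f x) := by
  classical
  funext w
  show (∑ v, if f v = w then x (g⁻¹ • v) else 0) = ∑ v, if f v = g⁻¹ • w then x v else 0
  rw [← Equiv.sum_comp (MulAction.toPerm g : V ≃ V)]
  refine Finset.sum_congr rfl fun v _ => ?_
  have e1 : (MulAction.toPerm g : Equiv.Perm V) v = g • v := rfl
  rw [e1, hf, inv_smul_smul, eq_inv_smul_iff]

/-- the vertex `v` as a point of the realisation -/
noncomputable def pt (v : V) : V → ℝ := by
  classical exact Pi.single v 1

omit [Fintype V] in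
theorem pt_self (v : V) : pt v v = 1 := by classical simp [pt]

omit [Fintype V] in
theorem pt_ne {v v' : V} (h : v' ≠ v) : pt v v' = 0 := by classical simp [pt, h]

omit [Fintype V] in
theorem pt_nonneg (v w : V) : 0 ≤ pt v w := by
  classical
  by_cases h : w = v
  · rw [h, pt_self]; exact zero_le_one
  · rw [pt_ne h]

omit [Fintype V] in
theorem pt_ne_zero {v w : V} (h : pt v w ≠ 0) : w = v := by
  by_contra h'
  exact h (pt_ne h')

theorem sum_pt (v : V) : ∑ w, pt v w = 1 := by
  classical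
  unfold pt
  rw [Finset.sum_pi_single']
  simp

omit [Fintype V] in
theorem act_pt {G : Type u} [Group G] [MulAction G V] (g : G) (v : V) :
    act g (pt v) = pt (g • v) := by
  funext w
  by_cases h : w = g • v
  · subst h; simp [pt_self]
  · rw [pt_ne h, act_apply, pt_ne]
    intro h'
    exact h (by rw [← h', smul_inv_smul])

theorem push_pt (f : V → W) (v : V) : push f (pt v) = pt (f v) := by
  classical
  funext w
  unfold push
  rw [Finset.sum_eq_single v]
  · by_cases h : f v = w
    · rw [if_pos h, pt_self, h, pt_self]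
    · rw [if_neg h, pt_ne (Ne.symm h)]
  · intro b _ hb
    rw [pt_ne hb]; simp
  · intro h; exact absurd (Finset.mem_univ v) h

theorem pt_mem {K : SC V} {v : V} (h : {v} ∈ K.faces) : pt v ∈ K.real :=
  ⟨pt_nonneg v, sum_pt v, {v}, h, fun w hw => by rw [pt_ne_zero hw]; exact Finset.mem_singleton_self v⟩

theorem pt_mem_order {P : Type v} [PartialOrder P] [Fintype P] (v : P) :
    pt v ∈ (orderComplex P).real := by
  apply pt_mem
  refine ⟨Finset.singleton_nonempty v, ?_⟩
  intro x hx y hy
  rw [Finset.mem_singleton] at hx hy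
  rw [hx, hy]; exact Or.inl le_rfl

end push

section order

variable {P : Type v} [PartialOrder P] [Fintype P]

theorem mem_real_order {x : P → ℝ} : x ∈ (orderComplex P).real ↔
    (∀ v, 0 ≤ x v) ∧ ∑ v, x v = 1 ∧ ∀ u v, x u ≠ 0 → x v ≠ 0 → u ≤ v ∨ v ≤ u := by
  classical
  constructor
  · rintro ⟨h0, h1, s, hs, hsup⟩
    exact ⟨h0, h1, fun u v hu hv => hs.2 u (hsup u hu) v (hsup v hv)⟩
  · rintro ⟨h0, h1, h2⟩
    refine ⟨h0, h1, Finset.univ.filter (fun v => x v ≠ 0), ⟨?_, ?_⟩, ?_⟩
    · by_contra hne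
      rw [Finset.not_nonempty_iff_eq_empty] at hne
      have : ∀ v, x v = 0 := by
        intro v
        by_contra hv
        have : v ∈ Finset.univ.filter (fun v => x v ≠ 0) := by simp [hv]
        rw [hne] at this
        simp at this
      simp [this] at h1
    · intro u hu v hv
      rw [Finset.mem_filter] at hu hv
      exact h2 u v hu.2 hv.2
    · intro v hv
      simp [hv]

end order

section simp

variable {G : Type u} [Group G] {V : Type v} [MulAction G V] {W : Type w} [MulAction G W]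
  [Fintype V] [Fintype W]

theorem onMap_push {K : SC V} {L : SC W} {f : V → W}
    (hf : ∀ (g : G) x, f (g • x) = g • f x)
    (hs : ∀ s ∈ K.faces, ∃ t ∈ L.faces, ∀ y, y ∈ t ↔ ∃ x ∈ s, f x = y) :
    OnMap G K L (push f) where
  cont := (continuous_push f).continuousOn
  maps x hx := by
    obtain ⟨h0, h1, s, h2, h3⟩ := hx
    obtain ⟨t, ht, hst⟩ := hs s h2
    refine ⟨push_nonneg h0, by rw [sum_push, h1], t, ht, fun w hw => ?_⟩
    obtain ⟨v, hv, hv2⟩ := push_ne_zero hw
    exact (hst w).mpr ⟨v, h3 v hv2, hv⟩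
  equi g x _ := push_act hf g x

theorem ctsMap_of_simpMap {K : SC V} {L : SC W} (h : SimpMap G K L) : CtsMap G K L := by
  obtain ⟨f, hf, hs⟩ := h
  exact ctsMap_of_onMap (onMap_push hf hs)

end simp

section order2

variable {G : Type u} [Group G]

/-- maps preserving comparability are simplicial -/
theorem simp_of_comp {P : Type v} {Q : Type w} [PartialOrder P] [PartialOrder Q] {f : P → Q}
    (h : ∀ x y, x ≤ y → f x ≤ f y ∨ f y ≤ f x) (s : Finset P) (hs : s ∈ (orderComplex P).faces) :
    ∃ t ∈ (orderComplex Q).faces, ∀ y, y ∈ t ↔ ∃ x ∈ s, f x = y := by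
  classical
  refine ⟨s.image f, ⟨hs.1.image f, ?_⟩, fun y => by rw [Finset.mem_image]⟩
  intro x hx y hy
  rw [Finset.mem_image] at hx hy
  obtain ⟨a, ha, rfl⟩ := hx
  obtain ⟨b, hb, rfl⟩ := hy
  rcases hs.2 a ha b hb with h' | h'
  · exact h a b h'
  · exact (h b a h').symm

theorem simpMap_iff {P : Type v} {Q : Type w} [PartialOrder P] [PartialOrder Q] [MulAction G P]
    [MulAction G Q] : SimpMap G (orderComplex P) (orderComplex Q) ↔
    ∃ f : P → Q, (∀ (g : G) x, f (g • x) = g • f x) ∧ ∀ x y, x ≤ y → f x ≤ f y ∨ f y ≤ f x := by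
  classical
  constructor
  · rintro ⟨f, hf, hs⟩
    refine ⟨f, hf, fun x y hxy => ?_⟩
    obtain ⟨t, ht, hst⟩ := hs {x, y} ⟨⟨x, by simp⟩, by
      intro a ha b hb
      simp only [Finset.mem_insert, Finset.mem_singleton] at ha hb
      rcases ha with rfl | rfl <;> rcases hb with rfl | rfl
      · exact Or.inl le_rfl
      · exact Or.inl hxy
      · exact Or.inr hxy
      · exact Or.inl le_rfl⟩
    exact ht.2 _ ((hst _).mpr ⟨x, by simp, rfl⟩) _ ((hst _).mpr ⟨y, by simp, rfl⟩)
  · rintro ⟨f, hf, hs⟩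
    exact ⟨f, hf, simp_of_comp hs⟩

theorem sindLE_of_xindLE {P : Type v} [PartialOrder P] [MulAction G P] {n : ℕ}
    (h : XindLE G P n) : SindLE G (orderComplex P) n := by
  obtain ⟨ψ, hm, he⟩ := h
  exact simpMap_iff.mpr ⟨ψ, he, fun x y hxy => Or.inl (hm hxy)⟩

theorem indLE_of_sindLE [Fintype G] {V : Type v} [MulAction G V] [Fintype V] {K : SC V} {n : ℕ}
    (h : SindLE G K n) : IndLE G K n := ctsMap_of_simpMap h

/-- raising levels -/
def QG.up {G : Type u} {k l : ℕ} (h : k ≤ l) (a : QG G k) : QG G l :=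
  ⟨a.g, Fin.castLE (by omega) a.lev⟩

omit [Group G] in
theorem QG.up_mono {k l : ℕ} (h : k ≤ l) : Monotone (QG.up h : QG G k → QG G l) := by
  intro a b hab
  rcases hab with rfl | hab
  · exact Or.inl rfl
  · exact Or.inr hab

theorem QG.up_smul {k l : ℕ} (h : k ≤ l) (g : G) (a : QG G k) :
    QG.up h (g • a) = g • QG.up h a := rfl

theorem XindLE.mono {P : Type v} [PartialOrder P] [MulAction G P] {k l : ℕ} (hkl : k ≤ l)
    (h : XindLE G P k) : XindLE G P l := by
  obtain ⟨ψ, hm, he⟩ := h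
  exact ⟨fun x => QG.up hkl (ψ x), (QG.up_mono hkl).comp hm, fun g x => by
    show QG.up hkl (ψ (g • x)) = g • QG.up hkl (ψ x)
    rw [he, QG.up_smul]⟩

theorem simpMap_up {k l : ℕ} (hkl : k ≤ l) : SimpMap G (EG G k) (EG G l) :=
  simpMap_iff.mpr ⟨QG.up hkl, fun _ _ => rfl, fun _ _ hxy => Or.inl (QG.up_mono hkl hxy)⟩

theorem SimpMap.comp {V : Type*} {W : Type*} {U : Type*} [MulAction G V] [MulAction G W]
    [MulAction G U] {K : SC V} {L : SC W} {M : SC U} (h : SimpMap G K L) (h' : SimpMap G L M) :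
    SimpMap G K M := by
  obtain ⟨f, hf, hs⟩ := h
  obtain ⟨f', hf', hs'⟩ := h'
  refine ⟨f' ∘ f, fun g x => by simp [hf, hf'], fun s hsK => ?_⟩
  obtain ⟨t, ht, hst⟩ := hs s hsK
  obtain ⟨t', ht', hst'⟩ := hs' t ht
  refine ⟨t', ht', fun y => ?_⟩
  rw [hst']
  constructor
  · rintro ⟨z, hz, rfl⟩
    obtain ⟨x, hx, rfl⟩ := (hst z).mp hz
    exact ⟨x, hx, rfl⟩
  · rintro ⟨x, hx, rfl⟩
    exact ⟨f x, (hst _).mpr ⟨x, hx, rfl⟩, rfl⟩

theorem SindLE.mono {V : Type v} [MulAction G V] {K : SC V} {k l : ℕ} (hkl : k ≤ l)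
    (h : SindLE G K k) : SindLE G K l := SimpMap.comp h (simpMap_up hkl)

theorem CtsMap.comp {V : Type*} {W : Type*} {U : Type*} [MulAction G V] [MulAction G W]
    [MulAction G U] [Fintype V] [Fintype W] [Fintype U] {K : SC V} {L : SC W} {M : SC U}
    (h : CtsMap G K L) (h' : CtsMap G L M) : CtsMap G K M := by
  obtain ⟨f, hf, he⟩ := h
  obtain ⟨f', hf', he'⟩ := h'
  exact ⟨f' ∘ f, hf'.comp hf, fun g x y hy => he' g _ _ (he g x y hy)⟩

theorem IndLE.mono [Fintype G] {V : Type v} [MulAction G V] [Fintype V] {K : SC V} {k l : ℕ}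
    (hkl : k ≤ l) (h : IndLE G K k) : IndLE G K l :=
  CtsMap.comp h (ctsMap_of_simpMap (simpMap_up hkl))

end order2

section top

theorem isClosed_real {V : Type v} [Fintype V] (K : SC V) : IsClosed K.real := by
  classical
  have e : K.real = (⋂ v, {x : V → ℝ | 0 ≤ x v}) ∩ ({x | ∑ v, x v = 1} ∩
      ⋃ s : {s : Finset V // s ∈ K.faces}, ⋂ v, {x : V → ℝ | v ∉ s.1 → x v = 0}) := by
    ext x
    simp only [SC.real, mem_setOf_eq, mem_inter_iff, mem_iInter, mem_iUnion, Subtype.exists]
    refine and_congr Iff.rfl (and_congr Iff.rfl ?_)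
    constructor
    · rintro ⟨s, hs, h⟩
      exact ⟨s, hs, fun v hv => by_contra fun h' => hv (h v h')⟩
    · rintro ⟨s, hs, h⟩
      exact ⟨s, hs, fun v hv => by_contra fun h' => hv (h v h')⟩
  rw [e]
  refine IsClosed.inter (isClosed_iInter fun v => isClosed_le continuous_const (continuous_apply v))
    (IsClosed.inter (isClosed_eq (by fun_prop) continuous_const) ?_)
  refine isClosed_iUnion_of_finite fun s => isClosed_iInter fun v => ?_
  by_cases h : v ∈ s.1
  · simp [h]
  · simp only [h, not_false_eq_true, forall_const]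
    exact isClosed_eq (continuous_apply v) continuous_const

/-- Gluing finitely many continuous maps on closed sets. -/
theorem glue {ι : Type*} [Finite ι] {X Y : Type*} [TopologicalSpace X] [TopologicalSpace Y]
    (C : ι → Set X) (hC : ∀ i, IsClosed (C i)) (f : ι → X → Y)
    (hf : ∀ i, ContinuousOn (f i) (C i))
    (hag : ∀ i j x, x ∈ C i → x ∈ C j → f i x = f j x) (y0 : Y) :
    ∃ F : X → Y, ContinuousOn F (⋃ i, C i) ∧ ∀ i, ∀ x ∈ C i, F x = f i x := by
  classical
  let F : X → Y := fun x => if h : ∃ i, x ∈ C i then f h.choose x else y0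
  have hF : ∀ i, ∀ x ∈ C i, F x = f i x := by
    intro i x hx
    have h : ∃ i, x ∈ C i := ⟨i, hx⟩
    show (if h : ∃ i, x ∈ C i then f h.choose x else y0) = _
    rw [dif_pos h]
    exact hag _ _ _ h.choose_spec hx
  refine ⟨F, ?_, hF⟩
  refine (locallyFinite_of_finite C).continuousOn_iUnion hC fun i => ?_
  exact (hf i).congr fun x hx => hF i x hx

end top

end Pool.Agent.R126.Ix
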