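import Pool.Agent.R126.Ix.CStep

set_option autoImplicit false

namespace Pool.Agent.R126.Ix

open scoped BigOperators Topology
open Set

universe u v w

section pushlem

theorem push_const {V : Type*} {W : Type*} [Fintype V] {f : V → W} {x : V → ℝ} {w0 : W}
    (h : ∀ v, x v ≠ 0 → f v = w0) : push f x = (∑ v, x v) • pt w0 := by
  classical
  funext w
  rw [Pi.smul_apply, smul_eq_mul]
  by_cases hw : w = w0
  · rw [hw, pt_self, mul_one]
    unfold push
    refine Finset.sum_congr rfl fun v _ => ?_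
    by_cases hv : x v = 0
    · rw [hv]; simp
    · rw [if_pos (h v hv)]
  · rw [pt_ne hw, mul_zero]
    by_contra hne
    obtain ⟨v, hv1, hv2⟩ := push_ne_zero hne
    exact hw (by rw [← hv1, h v hv2])

end pushlem

section cindex

variable {V : Type u} {J : Type u} [Fintype V] [Fintype J] [DecidableEq J]

/-- mass of the copy `j` -/
def mas (j : J) (z : CV J V → ℝ) : ℝ := ∑ v, z ⟨j, v⟩

/-- everything outside the copy `j` -/
def rst (j : J) (z : CV J V → ℝ) : CV J V → ℝ := fun x => if x.j = j then 0 else z x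

omit [DecidableEq J] in
theorem sum_cv (z : CV J V → ℝ) : ∑ x, z x = ∑ j, mas j z := by
  rw [← Equiv.sum_comp (CV.equivProd J V).symm, Fintype.sum_prod_type]
  rfl

omit [Fintype J] [DecidableEq J] in
theorem continuous_mas (j : J) : Continuous (mas j : (CV J V → ℝ) → ℝ) := by
  unfold mas
  fun_prop

omit [Fintype V] [Fintype J] in
theorem continuous_rst (j : J) : Continuous (rst j : (CV J V → ℝ) → (CV J V → ℝ)) := by
  refine continuous_pi fun x => ?_
  unfold rst
  by_cases h : x.j = j
  · simp only [h, if_true]; exact continuous_const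
  · simp only [h, if_false]; exact continuous_apply x

theorem sum_rst (j : J) (z : CV J V → ℝ) : ∑ x, rst j z x = ∑ x, z x - mas j z := by
  have h : ∑ x, z x = ∑ x, rst j z x + ∑ x, (if x.j = j then z x else 0) := by
    rw [← Finset.sum_add_distrib]
    refine Finset.sum_congr rfl fun x _ => ?_
    unfold rst
    split_ifs <;> simp
  have h2 : ∑ x : CV J V, (if x.j = j then z x else 0) = mas j z := by
    rw [sum_cv, Finset.sum_eq_single j]
    · unfold mas
      refine Finset.sum_congr rfl fun v _ => ?_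
      simp
    · intro b _ hb
      unfold mas
      refine Finset.sum_eq_zero fun v _ => ?_
      simp [hb]
    · intro h; exact absurd (Finset.mem_univ _) h
  rw [h, h2]; ring

/-- contraction -/
noncomputable def wc (ν : J → J → V → V) (j : J) (z : CV J V → ℝ) : V → ℝ :=
  ((3 * mas j z - 2) / mas j z) • (fun v => z ⟨j, v⟩) +
    (3 : ℝ) • push (fun x : CV J V => ν j x.j x.v) (rst j z)

variable {G : Type u} [Group G] [Fintype G] [MulAction G V]

omit [Fintype J] [DecidableEq J] [Fintype G] in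
theorem mas_act (j : J) (g : G) (z : CV J V → ℝ) : mas j (act g z) = mas j z := by
  unfold mas
  show ∑ v : V, z ⟨j, g⁻¹ • v⟩ = _
  exact Equiv.sum_comp (MulAction.toPerm g⁻¹ : V ≃ V) (fun v => z ⟨j, v⟩)

omit [Fintype G] in
theorem wc_act {ν : J → J → V → V} (hν : ∀ (g : G) j k u, ν j k (g • u) = g • ν j k u) (j : J)
    (g : G) (z : CV J V → ℝ) : wc ν j (act g z) = act g (wc ν j z) := by
  unfold wc
  rw [act_add, act_smul, act_smul, mas_act, ← push_act (fun g x => hν g j x.j x.v)]
  rfl

variable {L : SC V} {h0 : G} {R : J → J → L.FP → Prop}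

omit [Fintype V] [Fintype J] [Fintype G] [DecidableEq J] in
/-- The auxiliary maps `ν`. -/
theorem exists_nu (hL : NoRep G L) (huniq : ∀ j k σ σ', R j k σ → R j k σ' → σ = σ')
    (hasym : ∀ j k σ σ', R j k σ → ¬ R k j σ') (vc : L.FP → V) :
    ∃ ν : J → J → V → V, (∀ (g : G) j k u, ν j k (g • u) = g • ν j k u) ∧
      (∀ j k (σ : L.FP) (g : G) u, R j k σ → u ∈ tr (g * h0) σ.1 → ν j k u = g • vc σ) ∧
      (∀ j k (σ : L.FP) (g : G) u, R k j σ → u ∈ tr g σ.1 → ν j k u = (g * h0) • vc σ) := by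
  classical
  let A : J → J → V → L.FP × G → Prop := fun j k u p => R j k p.1 ∧ u ∈ tr (p.2 * h0) p.1.1
  let B : J → J → V → L.FP × G → Prop := fun j k u p => R k j p.1 ∧ u ∈ tr p.2 p.1.1
  have hA : ∀ j k u p p', A j k u p → A j k u p' → p = p' := by
    rintro j k u ⟨σ, g⟩ ⟨σ', g'⟩ ⟨h1, h2⟩ ⟨h3, h4⟩
    obtain rfl := huniq _ _ _ _ h1 h3
    have h5 : g * h0 = g' * h0 := hL.eq σ.2 h2 h4
    exact Prod.ext rfl (mul_right_cancel h5)
  have hB : ∀ j k u p p', B j k u p → B j k u p' → p = p' := by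
    rintro j k u ⟨σ, g⟩ ⟨σ', g'⟩ ⟨h1, h2⟩ ⟨h3, h4⟩
    obtain rfl := huniq _ _ _ _ h1 h3
    have h5 : g = g' := hL.eq σ.2 h2 h4
    exact Prod.ext rfl h5
  let ν : J → J → V → V := fun j k u =>
    if h : ∃ p, A j k u p then h.choose.2 • vc h.choose.1
    else if h' : ∃ p, B j k u p then (h'.choose.2 * h0) • vc h'.choose.1 else u
  have n1 : ∀ j k u p, A j k u p → ν j k u = p.2 • vc p.1 := by
    intro j k u p hp
    have h : ∃ p, A j k u p := ⟨p, hp⟩
    show (if h : ∃ p, A j k u p then h.choose.2 • vc h.choose.1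
      else if h' : ∃ p, B j k u p then (h'.choose.2 * h0) • vc h'.choose.1 else u) = _
    rw [dif_pos h, hA _ _ _ _ _ h.choose_spec hp]
  have n2 : ∀ j k u p, B j k u p → ν j k u = (p.2 * h0) • vc p.1 := by
    intro j k u p hp
    have h : ¬ ∃ p, A j k u p := fun ⟨p', hp'⟩ => hasym _ _ _ _ hp'.1 hp.1
    have h' : ∃ p, B j k u p := ⟨p, hp⟩
    show (if h : ∃ p, A j k u p then h.choose.2 • vc h.choose.1
      else if h' : ∃ p, B j k u p then (h'.choose.2 * h0) • vc h'.choose.1 else u) = _
    rw [dif_neg h, dif_pos h', hB _ _ _ _ _ h'.choose_spec hp]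
  have n3 : ∀ j k u, (¬ ∃ p, A j k u p) → (¬ ∃ p, B j k u p) → ν j k u = u := by
    intro j k u h h'
    show (if h : ∃ p, A j k u p then h.choose.2 • vc h.choose.1
      else if h' : ∃ p, B j k u p then (h'.choose.2 * h0) • vc h'.choose.1 else u) = _
    rw [dif_neg h, dif_neg h']
  have eA : ∀ (g : G) j k u p, A j k u p → A j k (g • u) (p.1, g * p.2) := by
    rintro g j k u p ⟨h1, h2⟩
    refine ⟨h1, ?_⟩
    show g • u ∈ tr (g * p.2 * h0) p.1.1
    rw [mul_assoc, tr_mul]
    exact smul_mem_tr h2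
  have eB : ∀ (g : G) j k u p, B j k u p → B j k (g • u) (p.1, g * p.2) := by
    rintro g j k u p ⟨h1, h2⟩
    refine ⟨h1, ?_⟩
    show g • u ∈ tr (g * p.2) p.1.1
    rw [tr_mul]
    exact smul_mem_tr h2
  refine ⟨ν, ?_, fun j k σ g u h1 h2 => n1 j k u (σ, g) ⟨h1, h2⟩,
    fun j k σ g u h1 h2 => n2 j k u (σ, g) ⟨h1, h2⟩⟩
  intro g j k u
  by_cases h : ∃ p, A j k u p
  · obtain ⟨p, hp⟩ := h
    rw [n1 _ _ _ _ hp, n1 _ _ _ _ (eA g j k u p hp), mul_smul]
  · by_cases h' : ∃ p, B j k u p
    · obtain ⟨p, hp⟩ := h'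
      rw [n2 _ _ _ _ hp, n2 _ _ _ _ (eB g j k u p hp), mul_assoc, mul_smul]
    · rw [n3 _ _ _ h h', n3]
      · rintro ⟨p, hp⟩
        have := eA g⁻¹ j k _ p hp
        rw [inv_smul_smul] at this
        exact h ⟨_, this⟩
      · rintro ⟨p, hp⟩
        have := eB g⁻¹ j k _ p hp
        rw [inv_smul_smul] at this
        exact h' ⟨_, this⟩

theorem cstep_index [IsGSC G L] (hL : NoRep G L)
    (huniq : ∀ j k σ σ', R j k σ → R j k σ' → σ = σ')
    (hasym : ∀ j k σ σ', R j k σ → ¬ R k j σ')
    (hvert : ∀ v : V, {v} ∈ L.faces)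
    {F : (V → ℝ) → (QG G 1 → ℝ)} (hF : OnMap G L (EG G 1) F)
    {a : V → G} (ha : ∀ (g : G) x, a (g • x) = g * a x) (hFa : ∀ x, F (pt x) = pt ⟨a x, 0⟩) :
    ∃ (F' : (CV J V → ℝ) → (QG G 1 → ℝ)) (a' : CV J V → G),
      OnMap G (cstep L h0 R) (EG G 1) F' ∧ (∀ (g : G) x, a' (g • x) = g * a' x) ∧
      ∀ x, F' (pt x) = pt ⟨a' x, 0⟩ := by
  classical
  choose vc hvc using fun σ : L.FP => L.nonempty σ.1 σ.2
  obtain ⟨ν, hν, hν1, hν2⟩ := exists_nu (h0 := h0) hL huniq hasym vc
  have hne : ∀ j k σ, R j k σ → j ≠ k := by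
    rintro j k σ h rfl
    exact hasym _ _ _ _ h h
  set K := cstep L h0 R with hK
  -- basic facts
  have hnn : ∀ z ∈ K.real, ∀ x, 0 ≤ z x := fun z hz => hz.1
  have hsum : ∀ z ∈ K.real, ∑ j, mas j z = 1 := by
    intro z hz; rw [← sum_cv]; exact hz.2.1
  have hmas0 : ∀ z ∈ K.real, ∀ j, 0 ≤ mas j z := fun z hz j => Finset.sum_nonneg fun v _ => hnn z hz _
  have hmas_ne : ∀ (z : CV J V → ℝ) j, mas j z ≠ 0 → ∃ v, z ⟨j, v⟩ ≠ 0 := by
    intro z j h
    obtain ⟨v, -, hv⟩ := Finset.exists_ne_zero_of_sum_ne_zero h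
    exact ⟨v, hv⟩
  have hmas_zero : ∀ (z : CV J V → ℝ) j, (∀ v, z ⟨j, v⟩ = 0) → mas j z = 0 :=
    fun z j h => Finset.sum_eq_zero fun v _ => h v
  -- two cases for a point
  have hcase : ∀ z ∈ K.real, (∃ j, mas j z = 1 ∧ ∃ σ : L.FP, ∀ x, z x ≠ 0 → x.j = j ∧ x.v ∈ σ.1) ∨
      (∃ j k σ g, R j k σ ∧ ∀ x, z x ≠ 0 → InE h0 j k σ g x) := by
    rintro z hz
    obtain ⟨h1, h2, s, hs, hsup⟩ := id hz
    rcases hs.2 with ⟨j, σ, h⟩ | ⟨j, k, σ, g, hR, h⟩
    · left
      refine ⟨j, ?_, σ, fun x hx => h x (hsup x hx)⟩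
      rw [← hsum z hz, Finset.sum_eq_single j]
      · intro b _ hb
        refine hmas_zero z b fun v => ?_
        by_contra hv
        exact hb (h _ (hsup _ hv)).1
      · intro h; exact absurd (Finset.mem_univ _) h
    · right
      exact ⟨j, k, σ, g, hR, fun x hx => h x (hsup x hx)⟩
  have hmas2 : ∀ z ∈ K.real, ∀ j k σ g, R j k σ → (∀ x, z x ≠ 0 → InE h0 j k σ g x) →
      mas j z + mas k z = 1 := by
    intro z hz j k σ g hR h
    rw [← hsum z hz]
    have hjk := hne j k σ hR
    rw [← Finset.sum_pair (f := fun i => mas i z) hjk]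
    refine Finset.sum_subset (Finset.subset_univ _) fun b _ hb => ?_
    refine hmas_zero z b fun v => ?_
    by_contra hv
    simp only [Finset.mem_insert, Finset.mem_singleton, not_or] at hb
    rcases h _ hv with ⟨h3, -⟩ | ⟨h3, -⟩
    · exact hb.1 h3
    · exact hb.2 h3
  have hpair : ∀ z ∈ K.real, ∀ j j', j ≠ j' → mas j z + mas j' z ≤ 1 := by
    intro z hz j j' hjj
    rw [← hsum z hz, ← Finset.sum_pair (f := fun i => mas i z) hjj]
    exact Finset.sum_le_sum_of_subset_of_nonneg (Finset.subset_univ _) fun i _ _ => hmas0 z hz i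
  -- the contraction lands in `L`
  have hwc : ∀ z ∈ K.real, ∀ j, 2 / 3 ≤ mas j z → wc ν j z ∈ L.real := by
    intro z hz j hj
    have hpos : 0 < mas j z := by linarith
    have hle : mas j z ≤ 1 := by
      rw [← hsum z hz]
      exact Finset.single_le_sum (f := fun j => mas j z) (fun i _ => hmas0 z hz i) (Finset.mem_univ j)
    have hc : 0 ≤ (3 * mas j z - 2) / mas j z := div_nonneg (by linarith) hpos.le
    have hr0 : ∀ x, 0 ≤ rst j z x := by
      intro x
      unfold rst
      split_ifs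
      · exact le_rfl
      · exact hnn z hz x
    refine ⟨fun v => ?_, ?_, ?_⟩
    · show 0 ≤ (3 * mas j z - 2) / mas j z * z ⟨j, v⟩ + 3 * push _ _ v
      have := push_nonneg (f := fun x : CV J V => ν j x.j x.v) hr0 v
      have := hnn z hz ⟨j, v⟩
      positivity
    · show ∑ v, ((3 * mas j z - 2) / mas j z * z ⟨j, v⟩ + 3 * push _ _ v) = 1
      rw [Finset.sum_add_distrib, ← Finset.mul_sum, ← Finset.mul_sum, sum_push, sum_rst]
      have : ∑ v, z ⟨j, v⟩ = mas j z := rfl
      rw [this, div_mul_cancel₀ _ hpos.ne', hz.2.1]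
      ring
    · have key : ∀ v, wc ν j z v ≠ 0 → z ⟨j, v⟩ ≠ 0 ∨ ∃ x : CV J V, ν j x.j x.v = v ∧ x.j ≠ j ∧ z x ≠ 0 := by
        intro v hv
        by_contra hcon
        push Not at hcon
        apply hv
        show (3 * mas j z - 2) / mas j z * z ⟨j, v⟩ + 3 * push _ _ v = 0
        rw [hcon.1, mul_zero, zero_add]
        have : push (fun x : CV J V => ν j x.j x.v) (rst j z) v = 0 := by
          by_contra h
          obtain ⟨x, hx1, hx2⟩ := push_ne_zero h
          unfold rst at hx2
          split_ifs at hx2 with h3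
          · exact hx2 rfl
          · exact hx2 (hcon.2 x hx1 h3)
        rw [this, mul_zero]
      obtain ⟨v0, hv0⟩ := hmas_ne z j hpos.ne'
      rcases hcase z hz with ⟨j', -, σ, h⟩ | ⟨j1, k1, σ, g, hR, h⟩
      · refine ⟨σ.1, σ.2, fun v hv => ?_⟩
        rcases key v hv with h1 | ⟨x, -, h2, h3⟩
        · exact (h _ h1).2
        · exact absurd ((h _ h3).1.trans (h _ hv0).1.symm) h2
      · have hjk := hne _ _ _ hR
        rcases h _ hv0 with ⟨h1, h2⟩ | ⟨h1, h2⟩
        · have h1' : j = j1 := h1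
          subst h1'
          refine ⟨tr g σ.1, IsGSC.tr_mem g σ.1 σ.2, fun v hv => ?_⟩
          rcases key v hv with h3 | ⟨x, h4, h5, h6⟩
          · rcases h _ h3 with ⟨-, h7⟩ | ⟨h7, -⟩
            · exact h7
            · exact absurd h7 hjk
          · rcases h _ h6 with ⟨h7, -⟩ | ⟨h7, h8⟩
            · exact absurd h7 h5
            · rw [← h4, h7, hν1 _ _ σ g x.v hR h8]
              exact smul_mem_tr (hvc σ)
        · have h1' : j = k1 := h1
          subst h1'
          refine ⟨tr (g * h0) σ.1, IsGSC.tr_mem _ σ.1 σ.2, fun v hv => ?_⟩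
          rcases key v hv with h3 | ⟨x, h4, h5, h6⟩
          · rcases h _ h3 with ⟨h7, -⟩ | ⟨-, h7⟩
            · exact absurd h7.symm hjk
            · exact h7
          · rcases h _ h6 with ⟨h7, h8⟩ | ⟨h7, -⟩
            · rw [← h4, h7, hν2 _ _ σ g x.v hR h8]
              exact smul_mem_tr (hvc σ)
            · exact absurd h7 h5
  have hwcc : ∀ j, ContinuousOn (wc ν j : (CV J V → ℝ) → (V → ℝ)) {z | 2 / 3 ≤ mas j z} := by
    intro j
    have hm := continuous_mas (J := J) (V := V) j
    have h1 : ContinuousOn (fun z : CV J V → ℝ => (3 * mas j z - 2) / mas j z) {z | 2 / 3 ≤ mas j z} := by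
      refine ContinuousOn.div (by fun_prop) (by fun_prop) ?_
      intro z hz
      have : 2 / 3 ≤ mas j z := hz
      linarith
    have h2 : Continuous (fun z : CV J V → ℝ => push (fun x : CV J V => ν j x.j x.v) (rst j z)) :=
      (continuous_push _).comp (continuous_rst j)
    have h3 : Continuous (fun z : CV J V → ℝ => fun v => z ⟨j, v⟩) := by fun_prop
    exact (h1.smul h3.continuousOn).add (h2.const_smul (3 : ℝ)).continuousOn
  -- the pieces
  let E := {e : J × J × L.FP × G // R e.1 e.2.1 e.2.2.1}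
  let C : J ⊕ E → Set (CV J V → ℝ) := fun i => match i with
    | Sum.inl j => {z | 2 / 3 ≤ mas j z}
    | Sum.inr e => {z | mas e.1.1 z ≤ 2 / 3 ∧ mas e.1.2.1 z ≤ 2 / 3 ∧
        ∀ x, ¬ InE h0 e.1.1 e.1.2.1 e.1.2.2.1 e.1.2.2.2 x → z x = 0}
  let f : J ⊕ E → (CV J V → ℝ) → (QG G 1 → ℝ) := fun i => match i with
    | Sum.inl j => fun z => F (wc ν j z)
    | Sum.inr e => fun z => gam (a (e.1.2.2.2 • vc e.1.2.2.1)) (a ((e.1.2.2.2 * h0) • vc e.1.2.2.1))
        (3 * mas e.1.2.1 z - 1)
  have hInE : ∀ {j k : J} {σ : L.FP} {g : G} {z : CV J V → ℝ},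
      (∀ x, ¬ InE h0 j k σ g x → z x = 0) → ∀ x, z x ≠ 0 → InE h0 j k σ g x := by
    intro j k σ g z h x hx
    by_contra h'
    exact hx (h x h')
  obtain ⟨F', hF', hval⟩ := glueMap (G := G) (K := K) (L := EG G 1) C
    (by
      rintro (j | e)
      · exact isClosed_le continuous_const (continuous_mas j)
      · refine (isClosed_le (continuous_mas _) continuous_const).inter
          ((isClosed_le (continuous_mas _) continuous_const).inter ?_)
        show IsClosed {z : CV J V → ℝ | ∀ x, ¬ InE h0 e.1.1 e.1.2.1 e.1.2.2.1 e.1.2.2.2 x → z x = 0}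
        simp only [ofPred_forall]
        exact isClosed_iInter fun x => isClosed_iInter fun _ =>
          isClosed_eq (continuous_apply _) continuous_const)
    f
    (by
      intro z hz
      rcases hcase z hz with ⟨j, hj, -⟩ | ⟨j, k, σ, g, hR, h⟩
      · refine ⟨Sum.inl j, ?_⟩
        show 2 / 3 ≤ mas j z
        rw [hj]; norm_num
      · by_cases h1 : 2 / 3 ≤ mas j z
        · exact ⟨Sum.inl j, h1⟩
        · by_cases h2 : 2 / 3 ≤ mas k z
          · exact ⟨Sum.inl k, h2⟩
          · push Not at h1 h2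
            refine ⟨Sum.inr ⟨(j, k, σ, g), hR⟩, h1.le, h2.le, fun x hx => ?_⟩
            by_contra h3
            exact hx (h x h3))
    (by
      rintro (j | e)
      · exact hF.cont.comp ((hwcc j).mono fun z hz => hz.2) fun z hz => hwc z hz.1 j hz.2
      · have := continuous_mas (J := J) (V := V) e.1.2.1
        exact ((continuous_gam _ _).comp (by fun_prop)).continuousOn)
    (by
      rintro (j | e) z hz hzc
      · exact hF.maps _ (hwc z hz j hzc)
      · have h1 := hmas2 z hz _ _ _ _ e.2 (hInE hzc.2.2)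
        have h2 : mas e.1.1 z ≤ 2 / 3 := hzc.1
        have h3 : mas e.1.2.1 z ≤ 2 / 3 := hzc.2.1
        exact gam_mem _ _ (by linarith) (by linarith))
    (by
      have hA : ∀ (j : J) (e : E), ∀ z ∈ K.real, z ∈ C (Sum.inl j) → z ∈ C (Sum.inr e) →
          f (Sum.inl j) z = f (Sum.inr e) z := by
        rintro j ⟨⟨j1, k1, σ, g⟩, hR⟩ z hz h1 ⟨h2, h3, h4⟩
        have h1 : 2 / 3 ≤ mas j z := h1
        have h2 : mas j1 z ≤ 2 / 3 := h2
        have h3 : mas k1 z ≤ 2 / 3 := h3
        have h4 : ∀ x, z x ≠ 0 → InE h0 j1 k1 σ g x := hInE h4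
        have h5 := hmas2 z hz _ _ _ _ hR h4
        have hR' : R j1 k1 σ := hR
        have hjk := hne _ _ _ hR'
        obtain ⟨v0, hv0⟩ := hmas_ne z j (by linarith)
        show F (wc ν j z) = gam (a (g • vc σ)) (a ((g * h0) • vc σ)) (3 * mas k1 z - 1)
        rcases h4 _ hv0 with ⟨h6, -⟩ | ⟨h6, -⟩
        · have h6' : j = j1 := h6
          subst h6'
          have h7 : mas j z = 2 / 3 := le_antisymm h2 h1
          have h8 : 3 * mas k1 z - 1 = 0 := by linarith
          rw [h8, gam_zero, ← hFa]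
          congr 1
          unfold wc
          have h9 : (3 * mas j z - 2) / mas j z = 0 := by rw [h7]; norm_num
          have h10 : push (fun x : CV J V => ν j x.j x.v) (rst j z) =
              (∑ x, rst j z x) • pt (g • vc σ) := by
            refine push_const fun x hx => ?_
            unfold rst at hx
            split_ifs at hx with h11
            · exact absurd rfl hx
            · rcases h4 x hx with ⟨h12, -⟩ | ⟨h12, h13⟩
              · exact absurd h12 h11
              · rw [h12]; exact hν1 _ _ σ g x.v hR' h13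
          rw [h9, zero_smul, zero_add, h10, sum_rst, hz.2.1, h7, smul_smul]
          norm_num
        · have h6' : j = k1 := h6
          subst h6'
          have h7 : mas j z = 2 / 3 := le_antisymm h3 h1
          have h8 : 3 * mas j z - 1 = 1 := by linarith
          rw [h8, gam_one, ← hFa]
          congr 1
          unfold wc
          have h9 : (3 * mas j z - 2) / mas j z = 0 := by rw [h7]; norm_num
          have h10 : push (fun x : CV J V => ν j x.j x.v) (rst j z) =
              (∑ x, rst j z x) • pt ((g * h0) • vc σ) := by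
            refine push_const fun x hx => ?_
            unfold rst at hx
            split_ifs at hx with h11
            · exact absurd rfl hx
            · rcases h4 x hx with ⟨h12, h13⟩ | ⟨h12, -⟩
              · rw [h12]; exact hν2 _ _ σ g x.v hR' h13
              · exact absurd h12 h11
          rw [h9, zero_smul, zero_add, h10, sum_rst, hz.2.1, h7, smul_smul]
          norm_num
      rintro (j | e) (j' | e') z hz h1 h2
      · by_cases hjj : j = j'
        · rw [hjj]
        · have h3 := hpair z hz j j' hjj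
          have h4 : 2 / 3 ≤ mas j z := h1
          have h5 : 2 / 3 ≤ mas j' z := h2
          linarith
      · exact hA j e' z hz h1 h2
      · exact (hA j' e z hz h2 h1).symm
      · have hee : e = e' := by
          obtain ⟨⟨j, k, σ, g⟩, hR⟩ := e
          obtain ⟨⟨j', k', σ', g'⟩, hR'⟩ := e'
          obtain ⟨a1, a2, a3⟩ := h1
          obtain ⟨b1, b2, b3⟩ := h2
          have a1 : mas j z ≤ 2 / 3 := a1
          have a2 : mas k z ≤ 2 / 3 := a2
          have a3 : ∀ x, z x ≠ 0 → InE h0 j k σ g x := hInE a3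
          have b3 : ∀ x, z x ≠ 0 → InE h0 j' k' σ' g' x := hInE b3
          have hR : R j k σ := hR
          have hR' : R j' k' σ' := hR'
          have h5 := hmas2 z hz _ _ _ _ hR a3
          have hjk := hne _ _ _ hR
          obtain ⟨u, hu⟩ := hmas_ne z j (by linarith)
          obtain ⟨w, hw⟩ := hmas_ne z k (by linarith)
          have hjj : j = j' ∧ k = k' := by
            rcases b3 _ hu with ⟨c1, -⟩ | ⟨c1, -⟩ <;> rcases b3 _ hw with ⟨c2, -⟩ | ⟨c2, -⟩
            · exact absurd (c1.trans c2.symm) hjk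
            · exact ⟨c1, c2⟩
            · have c1' : j = k' := c1
              have c2' : k = j' := c2
              subst c1' c2'
              exact absurd hR' (hasym _ _ _ _ hR)
            · exact absurd (c1.trans c2.symm) hjk
          obtain ⟨rfl, rfl⟩ := hjj
          obtain rfl := huniq _ _ _ _ hR hR'
          have hgg : g = g' := by
            have d1 : u ∈ tr g σ.1 := by
              rcases a3 _ hu with ⟨-, c1⟩ | ⟨c1, -⟩
              · exact c1
              · exact absurd c1 hjk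
            have d2 : u ∈ tr g' σ.1 := by
              rcases b3 _ hu with ⟨-, c1⟩ | ⟨c1, -⟩
              · exact c1
              · exact absurd c1 hjk
            exact hL.eq σ.2 d1 d2
          subst hgg
          rfl
        rw [hee])
    (by
      rintro g' (j | ⟨⟨j, k, σ, g⟩, hR⟩) z hz hzc
      · refine ⟨Sum.inl j, ?_, ?_⟩
        · show 2 / 3 ≤ mas j (act g' z)
          rw [mas_act]; exact hzc
        · show F (wc ν j (act g' z)) = act g' (F (wc ν j z))
          rw [wc_act hν, hF.equi g' _ (hwc z hz j hzc)]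
      · refine ⟨Sum.inr ⟨(j, k, σ, g' * g), hR⟩, ⟨?_, ?_, ?_⟩, ?_⟩
        · show mas j (act g' z) ≤ 2 / 3
          rw [mas_act]; exact hzc.1
        · show mas k (act g' z) ≤ 2 / 3
          rw [mas_act]; exact hzc.2.1
        · intro x hx
          show z (g'⁻¹ • x) = 0
          refine hzc.2.2 _ fun h => hx ?_
          exact inE_smul h
        · show gam (a ((g' * g) • vc σ)) (a ((g' * g * h0) • vc σ)) (3 * mas k (act g' z) - 1) =
            act g' (gam (a (g • vc σ)) (a ((g * h0) • vc σ)) (3 * mas k z - 1))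
          rw [mas_act, act_gam, ← ha, ← ha, smul_smul, smul_smul, mul_assoc])
  refine ⟨F', fun x => a x.v, hF', fun g x => ha g x.v, fun x => ?_⟩
  have hx : pt x ∈ K.real := by
    apply pt_mem
    refine ⟨Finset.singleton_nonempty x, Or.inl ⟨x.j, ⟨{x.v}, hvert x.v⟩, fun y hy => ?_⟩⟩
    rw [Finset.mem_singleton] at hy
    subst hy
    exact ⟨rfl, Finset.mem_singleton_self _⟩
  have hm : mas x.j (pt x) = 1 := by
    unfold mas
    rw [Finset.sum_eq_single x.v]
    · exact pt_self x
    · intro v _ hv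
      refine pt_ne ?_
      intro h
      exact hv (congrArg CV.v h)
    · intro h; exact absurd (Finset.mem_univ _) h
  have h2 : pt x ∈ C (Sum.inl x.j) := by
    show 2 / 3 ≤ mas x.j (pt x)
    rw [hm]; norm_num
  rw [hval (Sum.inl x.j) _ hx h2]
  show F (wc ν x.j (pt x)) = _
  rw [← hFa]
  congr 1
  unfold wc
  have h3 : rst x.j (pt x) = fun _ => (0 : ℝ) := by
    funext y
    unfold rst
    split_ifs with h
    · rfl
    · refine pt_ne ?_
      rintro rfl
      exact h rfl
  have h4 : (fun v => pt x ⟨x.j, v⟩) = pt x.v := by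
    funext v
    by_cases hv : v = x.v
    · rw [hv]
      show pt x x = pt x.v x.v
      rw [pt_self, pt_self]
    · rw [pt_ne hv, pt_ne]
      intro h
      exact hv (congrArg CV.v h)
  rw [hm, h3, h4, push_zero']
  norm_num

end cindex

end Pool.Agent.R126.Ix
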