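import Pool.Agent.R126.Ix.Step

set_option autoImplicit false

namespace Pool.Agent.R126.Ix

open scoped BigOperators Topology
open Set

universe u v w

/-- Vertices of the new complex: copies of `V` indexed by `J`. -/
@[ext]
structure CV (J : Type u) (V : Type u) : Type u where
  /-- index of the copy -/
  j : J
  /-- vertex -/
  v : V

namespace CV

variable {J V : Type u}

def equivProd (J V : Type u) : CV J V ≃ J × V where
  toFun x := (x.j, x.v)
  invFun x := ⟨x.1, x.2⟩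
  left_inv _ := rfl
  right_inv _ := rfl

instance [Fintype J] [Fintype V] : Fintype (CV J V) := Fintype.ofEquiv _ (equivProd J V).symm

instance {G : Type u} [Group G] [MulAction G V] : MulAction G (CV J V) where
  smul g x := ⟨x.j, g • x.v⟩
  one_smul x := by
    show (⟨x.j, (1 : G) • x.v⟩ : CV J V) = x
    rw [one_smul]
  mul_smul g h x := by
    show (⟨x.j, (g * h) • x.v⟩ : CV J V) = ⟨x.j, g • h • x.v⟩
    rw [mul_smul]

theorem smul_mk {G : Type u} [Group G] [MulAction G V] (g : G) (j : J) (v : V) :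
    g • (⟨j, v⟩ : CV J V) = ⟨j, g • v⟩ := rfl

end CV

/-- No simplex contains two vertices of one orbit. -/
def NoRep (G : Type u) {V : Type u} [Group G] [MulAction G V] (L : SC V) : Prop :=
  ∀ σ ∈ L.faces, ∀ v ∈ σ, ∀ g : G, g • v ∈ σ → g = 1

theorem NoRep.free {G : Type u} {V : Type u} [Group G] [MulAction G V] {L : SC V} [IsGSC G L]
    (h : NoRep G L) : IsFree G L.FP where
  eq_one g s hs := by
    obtain ⟨v, hv⟩ := L.nonempty s.1 s.2
    have h1 : tr g s.1 = s.1 := congrArg Subtype.val hs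
    exact h s.1 s.2 v hv g (by rw [← h1]; exact smul_mem_tr hv)

theorem NoRep.eq {G : Type u} {V : Type u} [Group G] [MulAction G V] {L : SC V}
    (h : NoRep G L) {σ : Finset V} (hσ : σ ∈ L.faces) {g g' : G} {u : V} (h1 : u ∈ tr g σ)
    (h2 : u ∈ tr g' σ) : g = g' := by
  rw [mem_tr] at h1 h2
  have h3 : (g'⁻¹ * g) • (g⁻¹ • u) ∈ σ := by
    rw [mul_smul, smul_inv_smul]; exact h2
  have h4 := h σ hσ _ h1 _ h3
  exact (inv_mul_eq_one.mp h4).symm

section cstep

variable {G : Type u} [Group G] {V : Type u} [MulAction G V] {J : Type u}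

/-- The support condition of the new simplices. -/
def InE {L : SC V} (h0 : G) (j k : J) (σ : L.FP) (g : G) (x : CV J V) : Prop :=
  (x.j = j ∧ x.v ∈ tr g σ.1) ∨ (x.j = k ∧ x.v ∈ tr (g * h0) σ.1)

/-- Copies of `L` indexed by `J`, together with, for `R j k σ`, the simplex `σ_j ∪ h0 σ_k`, all its
translates and all their faces. -/
def cstep (L : SC V) (h0 : G) (R : J → J → L.FP → Prop) : SC (CV J V) where
  faces := {τ | τ.Nonempty ∧ ((∃ j, ∃ σ : L.FP, ∀ x ∈ τ, x.j = j ∧ x.v ∈ σ.1) ∨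
    (∃ j k, ∃ σ : L.FP, ∃ g : G, R j k σ ∧ ∀ x ∈ τ, InE h0 j k σ g x))}
  nonempty _ h := h.1
  down s h t hts ht := by
    refine ⟨ht, ?_⟩
    rcases h.2 with ⟨j, σ, h⟩ | ⟨j, k, σ, g, hR, h⟩
    · exact Or.inl ⟨j, σ, fun x hx => h x (hts hx)⟩
    · exact Or.inr ⟨j, k, σ, g, hR, fun x hx => h x (hts hx)⟩

variable {L : SC V} {h0 : G} {R : J → J → L.FP → Prop}

theorem inE_smul {j k : J} {σ : L.FP} {g g' : G} {x : CV J V} (h : InE h0 j k σ g (g'⁻¹ • x)) :
    InE h0 j k σ (g' * g) x := by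
  rcases h with ⟨h1, h2⟩ | ⟨h1, h2⟩
  · left
    refine ⟨h1, ?_⟩
    rw [tr_mul, mem_tr]
    exact h2
  · right
    refine ⟨h1, ?_⟩
    rw [mul_assoc, tr_mul, mem_tr]
    exact h2

instance [IsGSC G L] : IsGSC G (cstep L h0 R) where
  tr_mem g s h := by
    obtain ⟨⟨x, hx⟩, h⟩ := h
    refine ⟨⟨g • x, smul_mem_tr hx⟩, ?_⟩
    rcases h with ⟨j, σ, h⟩ | ⟨j, k, σ, g', hR, h⟩
    · left
      refine ⟨j, g • σ, fun y hy => ?_⟩
      rw [mem_tr] at hy
      obtain ⟨h1, h2⟩ := h _ hy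
      refine ⟨h1, ?_⟩
      rw [SC.FP.smul_val, mem_tr]
      exact h2
    · right
      refine ⟨j, k, σ, g * g', hR, fun y hy => ?_⟩
      rw [mem_tr] at hy
      exact inE_smul (h _ hy)

theorem cstep_noRep (hL : NoRep G L) [IsGSC G L] (hasym : ∀ j k σ σ', R j k σ → ¬ R k j σ') :
    NoRep G (cstep L h0 R) := by
  rintro τ ⟨-, h⟩ x hx g hg
  rcases h with ⟨j, σ, h⟩ | ⟨j, k, σ, g', hR, h⟩
  · exact hL σ.1 σ.2 x.v (h x hx).2 g (h _ hg).2
  · have hjk : j ≠ k := by
      rintro rfl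
      exact hasym _ _ _ _ hR hR
    rcases h x hx with ⟨h1, h2⟩ | ⟨h1, h2⟩
    · rcases h _ hg with ⟨h3, h4⟩ | ⟨h3, h4⟩
      · exact hL _ (IsGSC.tr_mem g' σ.1 σ.2) x.v h2 g h4
      · exact absurd (h1.symm.trans h3) hjk
    · rcases h _ hg with ⟨h3, h4⟩ | ⟨h3, h4⟩
      · exact absurd (h3.symm.trans h1) hjk
      · exact hL _ (IsGSC.tr_mem (g' * h0) σ.1 σ.2) x.v h2 g h4

/-- the copy of a simplex -/
def cpy (j : J) (σ : Finset V) : Finset (CV J V) :=
  σ.map ⟨fun v => ⟨j, v⟩, fun _ _ h => congrArg CV.v h⟩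

theorem mem_cpy {j : J} {σ : Finset V} {x : CV J V} : x ∈ cpy j σ ↔ x.j = j ∧ x.v ∈ σ := by
  unfold cpy
  rw [Finset.mem_map]
  constructor
  · rintro ⟨v, hv, rfl⟩
    exact ⟨rfl, hv⟩
  · rintro ⟨h1, h2⟩
    refine ⟨x.v, h2, ?_⟩
    ext
    · exact h1.symm
    · rfl

theorem cpy_mem (j : J) (σ : L.FP) : cpy j σ.1 ∈ (cstep L h0 R).faces := by
  obtain ⟨v, hv⟩ := L.nonempty σ.1 σ.2
  exact ⟨⟨⟨j, v⟩, mem_cpy.mpr ⟨rfl, hv⟩⟩, Or.inl ⟨j, σ, fun x hx => mem_cpy.mp hx⟩⟩

theorem tr_cpy (g : G) (j : J) (σ : Finset V) : tr g (cpy j σ) = cpy j (tr g σ) := by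
  ext x
  rw [mem_tr, mem_cpy, mem_cpy, mem_tr]
  rfl

/-- the copy of a simplex, as an element of the face poset -/
def cp (L : SC V) (h0 : G) (R : J → J → L.FP → Prop) (j : J) (σ : L.FP) : (cstep L h0 R).FP :=
  ⟨cpy j σ.1, cpy_mem j σ⟩

theorem cp_smul [IsGSC G L] (g : G) (j : J) (σ : L.FP) :
    cp L h0 R j (g • σ) = g • cp L h0 R j σ :=
  Subtype.ext (tr_cpy g j σ.1).symm

theorem cp_mono (j : J) {σ σ' : L.FP} (h : σ ≤ σ') : cp L h0 R j σ ≤ cp L h0 R j σ' := by
  show cpy j σ.1 ⊆ cpy j σ'.1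
  intro x hx
  rw [mem_cpy] at hx ⊢
  exact ⟨hx.1, h hx.2⟩

/-- a top level colour occurs -/
theorem top_level {Q : Type v} [PartialOrder Q] [MulAction G Q] [Nonempty Q] {n : ℕ}
    (H : ∀ l, XindLE G Q l → n ≤ l) (ψ : Q → QG G n) (hm : Monotone ψ)
    (he : ∀ (g : G) x, ψ (g • x) = g • ψ x) : ∃ x, (ψ x).lev = Fin.last n := by
  by_contra hcon
  push Not at hcon
  cases n with
  | zero =>
    obtain ⟨x⟩ := ‹Nonempty Q›
    exact hcon x (Fin.ext (by have := (ψ x).lev.2; rw [Fin.val_last]; omega))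
  | succ n =>
    have hlt : ∀ x, (ψ x).lev.val < n + 1 := by
      intro x
      have h1 := (ψ x).lev.2
      have h2 : (ψ x).lev.val ≠ n + 1 := fun h => hcon x (Fin.ext h)
      omega
    have := H n ⟨fun x => ⟨(ψ x).g, ⟨(ψ x).lev.val, hlt x⟩⟩, ?_, ?_⟩
    · omega
    · intro x y hxy
      rcases hm hxy with h | h
      · left
        ext
        · show (ψ x).g = (ψ y).g
          rw [h]
        · show (ψ x).lev.val = (ψ y).lev.val
          rw [h]
      · exact Or.inr h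
    · intro g x
      ext
      · show (ψ (g • x)).g = g * (ψ x).g
        rw [he]; rfl
      · show (ψ (g • x)).lev.val = (ψ x).lev.val
        rw [he]; rfl

/-- lower bound for the cross-index of the face poset -/
theorem cstep_lower [IsGSC G L] [Nonempty L.FP] (hh : h0 ≠ 1) {n : ℕ}
    (H : ∀ l, XindLE G L.FP l → n ≤ l)
    (hcol : ∀ c : J → L.FP × G, ∃ j k, c j = c k ∧ R j k (c j).1)
    (l : ℕ) (hl : XindLE G (cstep L h0 R).FP l) : n + 1 ≤ l := by
  classical
  by_contra hlt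
  push Not at hlt
  obtain ⟨ψ, hm, he⟩ := hl.mono (show l ≤ n by omega)
  have key : ∀ j : J, ∃ σ : L.FP, (ψ (cp L h0 R j σ)).lev = Fin.last n := by
    intro j
    refine top_level H (fun σ : L.FP => ψ (cp L h0 R j σ)) ?_ ?_
    · intro σ σ' h
      exact hm (cp_mono j h)
    · intro g σ
      rw [cp_smul, he]
  choose s hs using key
  obtain ⟨j, k, h1, h2⟩ := hcol fun j => (s j, (ψ (cp L h0 R j (s j))).g)
  simp only [Prod.mk.injEq] at h1
  obtain ⟨h3, h4⟩ := h1
  have h2' : R j k (s j) := h2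
  -- the big simplex
  have hτ : cpy j (s j).1 ∪ cpy k (tr h0 (s k).1) ∈ (cstep L h0 R).faces := by
    obtain ⟨x, hx⟩ := (cpy_mem (h0 := h0) (R := R) j (s j)).1
    refine ⟨⟨x, Finset.mem_union_left _ hx⟩, Or.inr ⟨j, k, s j, 1, h2', fun y hy => ?_⟩⟩
    rcases Finset.mem_union.mp hy with hy | hy
    · rw [mem_cpy] at hy
      exact Or.inl ⟨hy.1, by rw [tr_one]; exact hy.2⟩
    · rw [mem_cpy] at hy
      exact Or.inr ⟨hy.1, by rw [one_mul, h3]; exact hy.2⟩
  let T : (cstep L h0 R).FP := ⟨_, hτ⟩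
  let A : (cstep L h0 R).FP := cp L h0 R j (s j)
  let B : (cstep L h0 R).FP := cp L h0 R k (s k)
  have hA : A ≤ T := show cpy j (s j).1 ⊆ _ from Finset.subset_union_left
  have hB : h0 • B ≤ T := by
    show tr h0 (cpy k (s k).1) ⊆ _
    rw [tr_cpy]
    exact Finset.subset_union_right
  have key2 : ∀ a b : QG G n, a.lev = Fin.last n → a ≤ b → b.g = a.g := by
    intro a b ha hab
    rcases hab with h | h
    · rw [h]
    · rw [ha] at h
      exact absurd h (not_lt.mpr (Fin.le_last _))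
  have e1 := key2 _ _ (hs j) (hm hA)
  have e2 := key2 (ψ (h0 • B)) (ψ T) (by rw [he]; exact hs k) (hm hB)
  rw [he] at e2
  have e3 : (ψ A).g = (ψ B).g := h4
  have e4 : h0 * (ψ B).g = (ψ B).g := by
    calc h0 * (ψ B).g = (h0 • ψ B).g := rfl
      _ = (ψ T).g := e2.symm
      _ = (ψ A).g := e1
      _ = (ψ B).g := e3
  exact hh (mul_eq_right.mp e4)

end cstep

section hamming

/-- Lines in a Hamming space: a relation as needed for `cstep_lower`. -/
def HR {S : Type u} {M : ℕ} (j k : S → Fin M) (σ : S) : Prop :=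
  j σ < k σ ∧ ∀ τ, τ ≠ σ → j τ = k τ

theorem HR.uniq {S : Type u} {M : ℕ} {j k : S → Fin M} {σ σ' : S} (h : HR j k σ) (h' : HR j k σ') :
    σ = σ' := by
  by_contra hne
  have := h.2 σ' (Ne.symm hne)
  exact absurd h'.1 (by rw [this]; exact lt_irrefl _)

theorem HR.asym {S : Type u} {M : ℕ} {j k : S → Fin M} {σ σ' : S} (h : HR j k σ)
    (h' : HR k j σ') : False := by
  by_cases hne : σ = σ'
  · subst hne
    exact lt_irrefl _ (h.1.trans h'.1)
  · have := h.2 σ' (Ne.symm hne)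
    exact absurd h'.1 (by rw [this]; exact lt_irrefl _)

theorem HR.exists {S : Type u} [Fintype S] {C : Type v} [Fintype C] {M : ℕ}
    (hM : Fintype.card S * Fintype.card C < M) (c : (S → Fin M) → S × C) :
    ∃ j k, c j = c k ∧ HR j k (c j).1 := by
  classical
  by_contra hcon
  push Not at hcon
  have hcon' : ∀ j k, c j = c k → (∀ τ, τ ≠ (c j).1 → j τ = k τ) → j = k := by
    intro j k h1 h2
    rcases lt_trichotomy (j (c j).1) (k (c j).1) with h | h | h
    · exact absurd ⟨h, h2⟩ (hcon j k h1)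
    · funext τ
      by_cases hτ : τ = (c j).1
      · rw [hτ, h]
      · exact h2 τ hτ
    · exact absurd ⟨by rw [← h1]; exact h, fun τ hτ => (h2 τ (by rw [h1]; exact hτ)).symm⟩
        (hcon k j h1.symm)
  let Φ : (S → Fin M) × Fin M → (S × C) × (S → Fin M) := fun p =>
    (c p.1, Function.update p.1 (c p.1).1 p.2)
  have hinj : Function.Injective Φ := by
    rintro ⟨j, a⟩ ⟨k, b⟩ h
    simp only [Φ, Prod.mk.injEq] at h
    obtain ⟨h1, h2⟩ := h
    have h3 : a = b := by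
      have := congrFun h2 (c j).1
      rw [Function.update_self] at this
      rw [h1, Function.update_self] at this
      exact this
    have h4 : j = k := by
      refine hcon' j k h1 fun τ hτ => ?_
      have := congrFun h2 τ
      rw [Function.update_of_ne hτ, Function.update_of_ne (by rw [← h1]; exact hτ)] at this
      exact this
    rw [h3, h4]
  have h5 := Fintype.card_le_of_injective Φ hinj
  rw [Fintype.card_prod, Fintype.card_prod, Fintype.card_prod, Fintype.card_fin, mul_comm] at h5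
  have hM0 : 0 < M := by omega
  have : Nonempty (Fin M) := ⟨⟨0, hM0⟩⟩
  have h6 : 0 < Fintype.card (S → Fin M) := Fintype.card_pos
  have h7 := Nat.le_of_mul_le_mul_right h5 h6
  omega

end hamming

end Pool.Agent.R126.Ix
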