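import Pool.Agent.R126.Ix.Basic
import Pool.Agent.Helper954.Hopf.D1c

set_option autoImplicit false

namespace Pool.Agent.R126.Ix

open scoped BigOperators Topology
open Set
open Pool.Agent.Helper954.Hopf.Dold (VV JK sh)
open Pool.Agent.Helper954.Hopf.Dold.D1c (dc_compact dc_sh_mem dc_sh_iter join_cover)

universe u v w

theorem exists_rho {G : Type u} [Group G] (g0 : G) {p : ℕ} (hg : orderOf g0 = p) :
    ∃ ρ : G → ZMod p, ∀ x, ρ (g0 * x) = ρ x + 1 := by
  classical
  let s := QuotientGroup.rightRel (Subgroup.zpowers g0)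
  let r : G → G := fun x => (Quotient.mk s x).out
  have hr : ∀ x, x * (r x)⁻¹ ∈ Subgroup.zpowers g0 := by
    intro x
    have : s (r x) x := Quotient.exact (Quotient.out_eq (Quotient.mk s x))
    exact QuotientGroup.rightRel_apply.mp this
  have hr2 : ∀ x, r (g0 * x) = r x := by
    intro x
    show (Quotient.mk s (g0 * x)).out = (Quotient.mk s x).out
    congr 1
    refine Quotient.sound ?_
    refine QuotientGroup.rightRel_apply.mpr ?_
    have : x * (g0 * x)⁻¹ = g0⁻¹ := by group
    rw [this]
    exact inv_mem (Subgroup.mem_zpowers g0)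
  choose i hi using fun x => Subgroup.mem_zpowers_iff.mp (hr x)
  refine ⟨fun x => (i x : ZMod p), fun x => ?_⟩
  have h1 : g0 ^ (i (g0 * x)) = g0 ^ (i x + 1) := by
    rw [hi, hr2, add_comm, zpow_add, zpow_one, hi, mul_assoc]
  rw [zpow_eq_zpow_iff_modEq, hg, ← ZMod.intCast_eq_intCast_iff] at h1
  show (i (g0 * x) : ZMod p) = (i x : ZMod p) + 1
  rw [h1]
  push_cast
  rfl

/-- There is no continuous `G`-map `E_m G → E_k G` for `k < m`. -/
theorem dold {G : Type u} [Group G] [Fintype G] [Nontrivial G] {m k : ℕ}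
    (h : CtsMap G (EG G m) (EG G k)) : m ≤ k := by
  classical
  by_contra hlt
  push Not at hlt
  obtain ⟨f, hf⟩ := onMap_of_ctsMap h
  obtain ⟨p, hp, hdvd⟩ := Nat.exists_prime_and_dvd (n := Fintype.card G)
    (by have := Fintype.one_lt_card (α := G); omega)
  have := Fact.mk hp
  obtain ⟨g0, hg0⟩ := exists_prime_orderOf_dvd_card p hdvd
  obtain ⟨ρ, hρ⟩ := exists_rho g0 hg0
  let φ : ZMod p → G := fun l => g0 ^ l.val
  have hφ : ∀ l, φ (l + 1) = g0 * φ l := by
    intro l
    show g0 ^ (l + 1).val = g0 * g0 ^ l.val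
    rw [ZMod.val_add, ← pow_succ', ← pow_mod_orderOf g0 (l.val + 1), hg0]
    congr 1
    rw [ZMod.val_one'' hp.one_lt.ne']
  let ι : VV p (m + 1) → (QG G m → ℝ) := fun y q => ∑ l, if φ l = q.g then y q.lev l else 0
  have hιc : Continuous ι := by
    refine continuous_pi fun q => continuous_finsetSum _ fun l _ => ?_
    by_cases h : φ l = q.g
    · simp only [h, if_true]; fun_prop
    · simp only [h, if_false]; exact continuous_const
  have hιsh : ∀ y, ι (sh y) = act g0 (ι y) := by
    intro y
    funext q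
    show (∑ l, if φ l = q.g then y q.lev (l - 1) else 0) =
      ∑ l, if φ l = g0⁻¹ * q.g then y q.lev l else 0
    rw [← Equiv.sum_comp (Equiv.addRight (1 : ZMod p))]
    refine Finset.sum_congr rfl fun l _ => ?_
    show (if φ (l + 1) = q.g then y q.lev (l + 1 - 1) else 0) = _
    rw [hφ, add_sub_cancel_right, eq_inv_mul_iff_mul_eq]
  have hιmem : ∀ y ∈ JK p (m + 1), ι y ∈ (EG G m).real := by
    rintro y ⟨h0, h1, h2⟩
    rw [mem_real_order]
    refine ⟨fun q => Finset.sum_nonneg fun l _ => ?_, ?_, ?_⟩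
    · split_ifs
      · exact h0 _ _
      · exact le_rfl
    · rw [← h1, ← Equiv.sum_comp (QG.equivProd G m).symm, Fintype.sum_prod_type, Finset.sum_comm]
      refine Finset.sum_congr rfl fun i _ => ?_
      show ∑ g, ∑ l, (if φ l = g then y i l else 0) = _
      rw [Finset.sum_comm]
      refine Finset.sum_congr rfl fun l _ => ?_
      rw [Finset.sum_ite_eq]
      simp
    · intro a b ha hb
      obtain ⟨l, -, hl⟩ := Finset.exists_ne_zero_of_sum_ne_zero ha
      obtain ⟨l', -, hl'⟩ := Finset.exists_ne_zero_of_sum_ne_zero hb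
      split_ifs at hl with h3
      · split_ifs at hl' with h4
        · rcases lt_trichotomy a.lev b.lev with h5 | h5 | h5
          · exact Or.inl (Or.inr h5)
          · left; left
            have : l = l' := by
              by_contra hne
              rcases h2 a.lev l l' hne with h6 | h6
              · exact hl h6
              · rw [h5] at h6; exact hl' h6
            ext
            · rw [← h3, ← h4, this]
            · rw [h5]
          · exact Or.inr (Or.inr h5)
        · exact absurd rfl hl'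
      · exact absurd rfl hl
  let U : VV p (m + 1) → VV p (k + 1) := fun y j l =>
    ∑ x : G, if ρ x = l then f (ι y) ⟨x, j⟩ else 0
  have hUc : ContinuousOn U (JK p (m + 1)) := by
    have h1 : ContinuousOn (fun y => f (ι y)) (JK p (m + 1)) :=
      hf.cont.comp hιc.continuousOn hιmem
    refine continuousOn_pi.mpr fun j => continuousOn_pi.mpr fun l => ?_
    refine continuousOn_finsetSum _ fun x _ => ?_
    by_cases h : ρ x = l
    · simp only [h, if_true]
      exact (continuous_apply (⟨x, j⟩ : QG G k)).comp_continuousOn h1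
    · simp only [h, if_false]; exact continuousOn_const
  have hUsh : ∀ y ∈ JK p (m + 1), U (sh y) = sh (U y) := by
    intro y hy
    funext j l
    show (∑ x : G, if ρ x = l then f (ι (sh y)) ⟨x, j⟩ else 0) =
      ∑ x : G, if ρ x = l - 1 then f (ι y) ⟨x, j⟩ else 0
    rw [hιsh, hf.equi g0 _ (hιmem y hy), ← Equiv.sum_comp (Equiv.mulLeft g0)]
    refine Finset.sum_congr rfl fun x _ => ?_
    show (if ρ (g0 * x) = l then f (ι y) (g0⁻¹ • ⟨g0 * x, j⟩) else 0) = _
    have e1 : (g0⁻¹ • (⟨g0 * x, j⟩ : QG G k)) = ⟨x, j⟩ := by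
      ext
      · simp
      · simp
    rw [e1, hρ]
    simp only [eq_sub_iff_add_eq]
  have hUiter : ∀ (n : ℕ), ∀ y ∈ JK p (m + 1),
      sh^[n] y ∈ JK p (m + 1) ∧ U (sh^[n] y) = sh^[n] (U y) := by
    intro n
    induction n with
    | zero => intro y hy; exact ⟨hy, rfl⟩
    | succ n ih =>
      intro y hy
      obtain ⟨h1, h2⟩ := ih y hy
      rw [Function.iterate_succ_apply', Function.iterate_succ_apply']
      exact ⟨dc_sh_mem p _ h1, by rw [hUsh _ h1, h2]⟩
  have hclosed : IsClosed (JK p (m + 1)) := (dc_compact p (m + 1)).isClosed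
  obtain ⟨T, hT⟩ : ∃ T : C(VV p (m + 1), VV p (k + 1)), ∀ y ∈ JK p (m + 1), T y = U y := by
    obtain ⟨T, hT⟩ := ContinuousMap.exists_restrict_eq hclosed
      (⟨(JK p (m + 1)).domRestrict U, continuousOn_iff_continuous_domRestrict.mp hUc⟩ :
        C(JK p (m + 1), VV p (k + 1)))
    refine ⟨T, fun y hy => ?_⟩
    have := congrArg (fun F : C(JK p (m + 1), VV p (k + 1)) => F ⟨y, hy⟩) hT
    exact this
  let sI : ZMod p → VV p (m + 1) → VV p (m + 1) := fun i y a b => y a (b - i)
  have hsI : ∀ i y, sI i y = sh^[i.val] y := by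
    intro i y
    rw [dc_sh_iter]
    funext a b
    show y a (b - i) = y a (b - (i.val : ZMod p))
    rw [ZMod.natCast_zmod_val]
  let Wf : VV p (m + 1) → VV p (k + 1) := fun y j l => ∑ i : ZMod p, T (sI i y) j (l + i)
  have hsIc : ∀ i, Continuous (sI i) := fun i =>
    continuous_pi fun a => continuous_pi fun b => by fun_prop
  have hWc : Continuous Wf := by
    refine continuous_pi fun j => continuous_pi fun l => continuous_finsetSum _ fun i _ => ?_
    have h1 : Continuous fun y => T (sI i y) := T.continuous.comp (hsIc i)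
    exact (continuous_apply (l + i)).comp ((continuous_apply j).comp h1)
  have hWsh : ∀ y j l, Wf (sh y) j l = Wf y j (l - 1) := by
    intro y j l
    show ∑ i : ZMod p, T (sI i (sh y)) j (l + i) = ∑ i : ZMod p, T (sI i y) j (l - 1 + i)
    rw [← Equiv.sum_comp (Equiv.addRight (1 : ZMod p)) (fun i => T (sI i y) j (l - 1 + i))]
    refine Finset.sum_congr rfl fun i _ => ?_
    show T (sI i (sh y)) j (l + i) = T (sI (i + 1) y) j (l - 1 + (i + 1))
    have e1 : sI i (sh y) = sI (i + 1) y := by
      funext a b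
      show y a (b - i - 1) = y a (b - (i + 1))
      rw [sub_sub]
    have e2 : l - 1 + (i + 1) = l + i := by ring
    rw [e1, e2]
  have hWJ : ∀ y ∈ JK p (m + 1), ∀ j l, Wf y j l = p * U y j l := by
    intro y hy j l
    show ∑ i : ZMod p, T (sI i y) j (l + i) = p * U y j l
    have : ∀ i : ZMod p, T (sI i y) j (l + i) = U y j l := by
      intro i
      rw [hsI, hT _ (hUiter _ y hy).1, (hUiter _ y hy).2, dc_sh_iter]
      show U y j (l + i - (i.val : ZMod p)) = _
      rw [ZMod.natCast_zmod_val, add_sub_cancel_right]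
    simp only [this, Finset.sum_const, Finset.card_univ, ZMod.card, nsmul_eq_mul]
  let O : Fin (k + 1) → Set (VV p (m + 1)) := fun j => {y | ∃ l, ∀ l', l' ≠ l → Wf y j l' < Wf y j l}
  let lab : Fin (k + 1) → VV p (m + 1) → ZMod p := fun j y =>
    if h : ∃ l, ∀ l', l' ≠ l → Wf y j l' < Wf y j l then h.choose else 0
  have hlab0 : ∀ j y l, (∀ l', l' ≠ l → Wf y j l' < Wf y j l) → lab j y = l := by
    intro j y l hl
    have h : ∃ l, ∀ l', l' ≠ l → Wf y j l' < Wf y j l := ⟨l, hl⟩
    show (if h : ∃ l, ∀ l', l' ≠ l → Wf y j l' < Wf y j l then h.choose else 0) = l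
    rw [dif_pos h]
    by_contra hne
    have h1 := hl _ hne
    have h2 := h.choose_spec l (Ne.symm hne)
    exact lt_irrefl _ (h1.trans h2)
  have hev : ∀ j y l, (∀ l', l' ≠ l → Wf y j l' < Wf y j l) →
      ∀ᶠ z in 𝓝 y, ∀ l', l' ≠ l → Wf z j l' < Wf z j l := by
    intro j y l hl
    have hc : ∀ l', Continuous fun z => Wf z j l' := fun l' =>
      (continuous_apply l').comp ((continuous_apply j).comp hWc)
    rw [Filter.eventually_all]
    intro l'
    by_cases h : l' = l
    · exact Filter.Eventually.of_forall fun z hz => absurd h hz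
    · filter_upwards [(hc l').continuousAt.eventually_lt (hc l).continuousAt (hl l' h)] with z hz _
      exact hz
  obtain ⟨y, hy, hyO⟩ := join_cover p (m + 1) (J := Fin (k + 1)) (by simpa using hlt) O
    (by
      intro j
      rw [isOpen_iff_mem_nhds]
      rintro y ⟨l, hl⟩
      filter_upwards [hev j y l hl] with z hz
      exact ⟨l, hz⟩) lab
    (by
      rintro j y ⟨l, hl⟩
      filter_upwards [hev j y l hl] with z hz
      rw [hlab0 j y l hl, hlab0 j z l hz])
    (by
      rintro j y ⟨l, hl⟩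
      refine ⟨l + 1, fun l' hl' => ?_⟩
      rw [hWsh, hWsh, add_sub_cancel_right]
      exact hl _ fun h => hl' (by rw [← h, sub_add_cancel]))
    (by
      rintro j y ⟨l, hl⟩
      rw [hlab0 j y l hl]
      refine hlab0 j _ _ fun l' hl' => ?_
      rw [hWsh, hWsh, add_sub_cancel_right]
      exact hl _ fun h => hl' (by rw [← h, sub_add_cancel]))
  -- contradiction
  have h1 := hf.maps _ (hιmem y hy)
  rw [mem_real_order] at h1
  obtain ⟨h0, hs, hc⟩ := h1
  obtain ⟨q, -, hq⟩ := Finset.exists_ne_zero_of_sum_ne_zero (by rw [hs]; exact one_ne_zero)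
  have hoth : ∀ x, x ≠ q.g → f (ι y) ⟨x, q.lev⟩ = 0 := by
    intro x hx
    by_contra hne
    rcases hc _ _ hq hne with (h2 | h2) | (h2 | h2)
    · exact hx (congrArg QG.g h2).symm
    · exact lt_irrefl _ h2
    · exact hx (congrArg QG.g h2)
    · exact lt_irrefl _ h2
  have hU1 : U y q.lev (ρ q.g) = f (ι y) q := by
    show (∑ x : G, if ρ x = ρ q.g then f (ι y) ⟨x, q.lev⟩ else 0) = _
    rw [Finset.sum_eq_single q.g]
    · simp
    · intro x _ hx
      rw [hoth x hx]; simp
    · intro h; exact absurd (Finset.mem_univ _) h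
  have hU2 : ∀ l, l ≠ ρ q.g → U y q.lev l = 0 := by
    intro l hl
    refine Finset.sum_eq_zero fun x _ => ?_
    split_ifs with h2
    · apply hoth
      rintro rfl
      exact hl h2.symm
    · rfl
  refine hyO q.lev ⟨ρ q.g, fun l' hl' => ?_⟩
  rw [hWJ y hy, hWJ y hy, hU1, hU2 _ hl', mul_zero]
  have hpos : 0 < f (ι y) q := lt_of_le_of_ne (h0 q) (Ne.symm hq)
  have : (0 : ℝ) < p := by exact_mod_cast hp.pos
  positivity

end Pool.Agent.R126.Ix
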