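import Pool.Agent.R126.Ix.Step
import Pool.Agent.R126.Ix.Dold

set_option autoImplicit false

namespace Pool.Agent.R126.Ix

open scoped BigOperators Topology
open Set

universe u v w

variable {G : Type u} [Group G] [Fintype G] [Nontrivial G]

theorem exists_tower (k : ℕ) : ∃ X : FreePoset G, Nonempty X.P ∧ XindLE G X.P k ∧
    (∀ l, SindLE G (orderComplex X.P) l → k ≤ l) ∧
    ∃ (F : (X.P → ℝ) → (QG G 1 → ℝ)) (a : X.P → G),
      OnMap G (orderComplex X.P) (EG G 1) F ∧ (∀ (g : G) x, a (g • x) = g * a x) ∧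
      ∀ x, F (pt x) = pt ⟨a x, 0⟩ := by
  classical
  induction k with
  | zero =>
    refine ⟨⟨QG G 0⟩, ⟨⟨1, 0⟩⟩, ⟨id, monotone_id, fun _ _ => rfl⟩, fun l _ => Nat.zero_le l,
      push (QG.up (Nat.zero_le 1)), QG.g, ?_, fun _ _ => rfl, ?_⟩
    · exact onMap_push (fun _ _ => rfl) (simp_of_comp fun x y hxy => Or.inl (QG.up_mono _ hxy))
    · intro x
      rw [push_pt]
      congr 1
      ext
      · rfl
      · show (x.lev).val = 0
        omega
  | succ k ih =>
    obtain ⟨X, hne, h1, h2, F, a, h3, h4, h5⟩ := ih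
    obtain ⟨F', a', h6, h7, h8⟩ := step_index (J := Fin (k + 1) × Bool) (0, false) h3 h4 h5
    refine ⟨⟨Step (Fin (k + 1) × Bool) X.P⟩, ?_, Step.xindLE (0, false) h1,
      fun l hl => step_lower h2 l hl, F', a', h6, h7, h8⟩
    obtain ⟨x⟩ := hne
    exact ⟨Step.copy (0, false) x⟩

instance instIsGPosetSum {P : Type v} {Q : Type w} [PartialOrder P] [PartialOrder Q] [MulAction G P]
    [MulAction G Q] [IsGPoset G P] [IsGPoset G Q] : IsGPoset G (P ⊕ Q) where
  smul_le g x y h := by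
    rcases x with x | x <;> rcases y with y | y
    · exact Sum.inl_le_inl_iff.mpr (IsGPoset.smul_le g (Sum.inl_le_inl_iff.mp h))
    · exact absurd h Sum.not_inl_le_inr
    · exact absurd h Sum.not_inr_le_inl
    · exact Sum.inr_le_inr_iff.mpr (IsGPoset.smul_le g (Sum.inr_le_inr_iff.mp h))

instance instIsFreeSum {P : Type v} {Q : Type w} [MulAction G P]
    [MulAction G Q] [IsFree G P] [IsFree G Q] : IsFree G (P ⊕ Q) where
  eq_one g x h := by
    rcases x with x | x
    · exact IsFree.eq_one g x (Sum.inl.inj h)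
    · exact IsFree.eq_one g x (Sum.inr.inj h)

theorem faces_sum {P : Type v} {Q : Type w} [PartialOrder P] [PartialOrder Q] (s : Finset (P ⊕ Q))
    (hs : s ∈ (orderComplex (P ⊕ Q)).faces) :
    (∃ t ∈ (orderComplex P).faces, ∀ v ∈ s, ∃ u ∈ t, v = Sum.inl u) ∨
      (∃ t ∈ (orderComplex Q).faces, ∀ v ∈ s, ∃ u ∈ t, v = Sum.inr u) := by
  classical
  obtain ⟨⟨v0, hv0⟩, hc⟩ := hs
  rcases v0 with p | q
  · left
    have h1 : ∀ v ∈ s, ∃ u, v = Sum.inl u := by
      intro v hv
      rcases v with u | u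
      · exact ⟨u, rfl⟩
      · rcases hc _ hv0 _ hv with h | h
        · exact absurd h Sum.not_inl_le_inr
        · exact absurd h Sum.not_inr_le_inl
    refine ⟨s.preimage Sum.inl Sum.inl_injective.injOn, ⟨⟨p, by simpa using hv0⟩, ?_⟩, ?_⟩
    · intro x hx y hy
      rw [Finset.mem_preimage] at hx hy
      rcases hc _ hx _ hy with h | h
      · exact Or.inl (Sum.inl_le_inl_iff.mp h)
      · exact Or.inr (Sum.inl_le_inl_iff.mp h)
    · intro v hv
      obtain ⟨u, rfl⟩ := h1 v hv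
      exact ⟨u, by simpa using hv, rfl⟩
  · right
    have h1 : ∀ v ∈ s, ∃ u, v = Sum.inr u := by
      intro v hv
      rcases v with u | u
      · rcases hc _ hv0 _ hv with h | h
        · exact absurd h Sum.not_inr_le_inl
        · exact absurd h Sum.not_inl_le_inr
      · exact ⟨u, rfl⟩
    refine ⟨s.preimage Sum.inr Sum.inr_injective.injOn, ⟨⟨q, by simpa using hv0⟩, ?_⟩, ?_⟩
    · intro x hx y hy
      rw [Finset.mem_preimage] at hx hy
      rcases hc _ hx _ hy with h | h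
      · exact Or.inl (Sum.inr_le_inr_iff.mp h)
      · exact Or.inr (Sum.inr_le_inr_iff.mp h)
    · intro v hv
      obtain ⟨u, rfl⟩ := h1 v hv
      exact ⟨u, by simpa using hv, rfl⟩

variable (G)

/-- For every nontrivial finite group and all `1 ≤ m < n` there is a finite free `G`-poset with
`ind Δ(P) = m` and `sind Δ(P) = Xind P = n`. -/
theorem exists_gap {m n : ℕ} (hm : 1 ≤ m) (hmn : m < n) : ∃ X : FreePoset G,
    IsInd G X.Δ.K m ∧ IsSind G X.Δ.K n ∧ IsXind G X.P n := by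
  obtain ⟨X, -, h1, h2, F, a, h3, -, -⟩ := exists_tower (G := G) n
  have hX : XindLE G (X.P ⊕ QG G m) n := by
    obtain ⟨ψ, hψ, he⟩ := h1
    refine ⟨Sum.elim ψ (QG.up hmn.le), ?_, ?_⟩
    · intro x y h
      rcases x with x | x <;> rcases y with y | y
      · exact hψ (Sum.inl_le_inl_iff.mp h)
      · exact absurd h Sum.not_inl_le_inr
      · exact absurd h Sum.not_inr_le_inl
      · exact QG.up_mono hmn.le (Sum.inr_le_inr_iff.mp h)
    · intro g x
      rcases x with x | x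
      · exact he g x
      · rfl
  have hS : ∀ l, SindLE G (orderComplex (X.P ⊕ QG G m)) l → n ≤ l := by
    intro l hl
    obtain ⟨f, hf, hc⟩ := simpMap_iff.mp hl
    exact h2 l (simpMap_iff.mpr ⟨fun x => f (Sum.inl x), fun g x => hf g (Sum.inl x),
      fun x y hxy => hc _ _ (Sum.inl_le_inl_iff.mpr hxy)⟩)
  refine ⟨⟨X.P ⊕ QG G m⟩, ⟨?_, ?_⟩, ⟨sindLE_of_xindLE (P := X.P ⊕ QG G m) hX, fun l hl => hS l hl⟩,
    ⟨hX, fun l hl => hS l (sindLE_of_xindLE hl)⟩⟩
  · show CtsMap G (orderComplex (X.P ⊕ QG G m)) (EG G m)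
    have hA : CtsMap G (orderComplex X.P) (EG G m) :=
      (ctsMap_of_onMap h3).comp (ctsMap_of_simpMap (simpMap_up hm))
    have hB : CtsMap G (EG G m) (EG G m) := ctsMap_of_simpMap (simpMap_up le_rfl)
    exact ctsMap_sum faces_sum hA hB
  · intro l hl
    have hl' : CtsMap G (orderComplex (X.P ⊕ QG G m)) (EG G l) := hl
    have h5 : SimpMap G (EG G m) (orderComplex (X.P ⊕ QG G m)) :=
      simpMap_iff.mpr ⟨Sum.inr, fun _ _ => rfl, fun x y hxy => Or.inl (Sum.inr_le_inr_iff.mpr hxy)⟩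
    exact dold ((ctsMap_of_simpMap h5).comp hl')

end Pool.Agent.R126.Ix
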