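import Pool.Agent.R126.Ix.CIndex
import Pool.Agent.R126.Ix.Dold
import Pool.Agent.R126.Ix.Tower

set_option autoImplicit false

namespace Pool.Agent.R126.Ix

open scoped BigOperators Topology
open Set

universe u v w

section tower

variable {G : Type u} [Group G] [Fintype G] [Nontrivial G]

theorem exists_ctower (n : ℕ) : ∃ (V : Type u) (_ : Fintype V) (_ : MulAction G V) (L : SC V)
    (_ : IsGSC G L), Nonempty L.FP ∧ NoRep G L ∧ (∀ v : V, {v} ∈ L.faces) ∧
    (∀ l, XindLE G L.FP l → n ≤ l) ∧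
    ∃ (F : (V → ℝ) → (QG G 1 → ℝ)) (a : V → G),
      OnMap G L (EG G 1) F ∧ (∀ (g : G) x, a (g • x) = g * a x) ∧ ∀ x, F (pt x) = pt ⟨a x, 0⟩ := by
  classical
  induction n with
  | zero =>
    have hsing : ∀ v : QG G 0, {v} ∈ (EG G 0).faces := by
      intro v
      refine ⟨Finset.singleton_nonempty v, ?_⟩
      intro x hx y hy
      rw [Finset.mem_singleton] at hx hy
      rw [hx, hy]; exact Or.inl le_rfl
    refine ⟨QG G 0, inferInstance, inferInstance, EG G 0, inferInstance,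
      ⟨⟨{⟨1, 0⟩}, hsing _⟩⟩, ?_, hsing, fun l _ => Nat.zero_le l,
      push (QG.up (Nat.zero_le 1)), QG.g, ?_, fun _ _ => rfl, ?_⟩
    · intro σ hσ v hv g hg
      have hlev : ∀ a b : QG G 0, ¬ a.lev < b.lev := fun a b h => by
        have h1 := a.lev.2
        have h2 := b.lev.2
        have h3 : a.lev.val < b.lev.val := h
        omega
      rcases hσ.2 v hv _ hg with (h | h) | (h | h)
      · exact IsFree.eq_one g v h.symm
      · exact absurd h (hlev _ _)
      · exact IsFree.eq_one g v h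
      · exact absurd h (hlev _ _)
    · exact onMap_push (fun _ _ => rfl) (simp_of_comp fun x y hxy => Or.inl (QG.up_mono _ hxy))
    · intro x
      rw [push_pt]
      congr 1
      ext
      · rfl
      · show (x.lev).val = 0
        omega
  | succ n ih =>
    obtain ⟨V, _, _, L, _, hne, hL, hvert, H, F, a, hF, ha, hFa⟩ := ih
    obtain ⟨h0, hh⟩ := exists_ne (1 : G)
    let M := Fintype.card L.FP * Fintype.card G + 1
    let R : (L.FP → Fin M) → (L.FP → Fin M) → L.FP → Prop := fun j k σ => HR j k σ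
    have huniq : ∀ j k σ σ', R j k σ → R j k σ' → σ = σ' := fun j k σ σ' h h' => HR.uniq h h'
    have hasym : ∀ j k σ σ', R j k σ → ¬ R k j σ' := fun j k σ σ' h h' => HR.asym h h'
    obtain ⟨F', a', hF', ha', hFa'⟩ := cstep_index (h0 := h0) (R := R) hL huniq hasym hvert hF ha hFa
    refine ⟨CV (L.FP → Fin M) V, inferInstance, inferInstance, cstep L h0 R, inferInstance,
      ?_, cstep_noRep hL hasym, ?_, ?_, F', a', hF', ha', hFa'⟩
    · obtain ⟨σ⟩ := hne
      exact ⟨cp L h0 R (fun _ => 0) σ⟩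
    · intro x
      refine ⟨Finset.singleton_nonempty x, Or.inl ⟨x.j, ⟨{x.v}, hvert x.v⟩, fun y hy => ?_⟩⟩
      rw [Finset.mem_singleton] at hy
      subst hy
      exact ⟨rfl, Finset.mem_singleton_self _⟩
    · intro l hl
      exact cstep_lower hh H (fun c => HR.exists (Nat.lt_succ_self _) c) l hl

/-- free actions have equivariant labels -/
theorem exists_label {G : Type u} [Group G] (X : Type v) [MulAction G X] [IsFree G X] :
    ∃ c : X → G, ∀ (g : G) x, c (g • x) = g * c x := by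
  classical
  let r : X → X := fun x => (Quotient.mk (MulAction.orbitRel G X) x).out
  have hr : ∀ x, ∃ g : G, g • r x = x := by
    intro x
    have h : (MulAction.orbitRel G X) (r x) x := Quotient.exact (Quotient.out_eq _)
    rw [MulAction.orbitRel_apply] at h
    obtain ⟨g, hg⟩ := h
    refine ⟨g⁻¹, ?_⟩
    have hg' : g • x = r x := hg
    rw [← hg', inv_smul_smul]
  have hr2 : ∀ (g : G) x, r (g • x) = r x := by
    intro g x
    show (Quotient.mk (MulAction.orbitRel G X) (g • x)).out =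
      (Quotient.mk (MulAction.orbitRel G X) x).out
    congr 1
    refine Quotient.sound ?_
    show (MulAction.orbitRel G X) (g • x) x
    rw [MulAction.orbitRel_apply]
    exact ⟨g, rfl⟩
  choose c hc using hr
  refine ⟨c, fun g x => ?_⟩
  have h1 : c (g • x) • r x = (g * c x) • r x := by
    rw [mul_smul, hc]
    have := hc (g • x)
    rw [hr2] at this
    exact this
  have h2 : ((g * c x)⁻¹ * c (g • x)) • r x = r x := by
    rw [mul_smul, h1, inv_smul_smul]
  exact (inv_mul_eq_one.mp (IsFree.eq_one _ _ h2)).symm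

end tower

section skel

variable {V : Type u}

/-- skeleta -/
def skel (L : SC V) (d : ℕ) : SC V where
  faces := {s | s ∈ L.faces ∧ s.card ≤ d}
  nonempty s h := L.nonempty s h.1
  down s h t hts ht := ⟨L.down s h.1 t hts ht, (Finset.card_le_card hts).trans h.2⟩

variable {G : Type u} [Group G] [MulAction G V]

theorem card_tr (g : G) (s : Finset V) : (tr g s).card = s.card := Finset.card_map _

instance {L : SC V} [IsGSC G L] (d : ℕ) : IsGSC G (skel L d) where
  tr_mem g s h := ⟨IsGSC.tr_mem g s h.1, by rw [card_tr]; exact h.2⟩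

theorem NoRep.skel {L : SC V} (h : NoRep G L) (d : ℕ) : NoRep G (skel L d) :=
  fun σ hσ => h σ hσ.1

theorem skel_succ {L : SC V} [IsGSC G L] (hL : NoRep G L) {d k : ℕ}
    (h : XindLE G (skel L d).FP k) : XindLE G (skel L (d + 1)).FP (k + 1) := by
  classical
  have := (hL.skel (d + 1)).free
  obtain ⟨c, hc⟩ := exists_label (G := G) (skel L (d + 1)).FP
  obtain ⟨ψ, hm, he⟩ := h
  let ψ' : (skel L (d + 1)).FP → QG G (k + 1) := fun s =>
    if hs : s.1.card ≤ d then QG.up (Nat.le_succ k) (ψ ⟨s.1, s.2.1, hs⟩)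
    else ⟨c s, Fin.last (k + 1)⟩
  have h1 : ∀ s : (skel L (d + 1)).FP, ∀ hs : s.1.card ≤ d,
      ψ' s = QG.up (Nat.le_succ k) (ψ ⟨s.1, s.2.1, hs⟩) := fun s hs => dif_pos hs
  have h2 : ∀ s : (skel L (d + 1)).FP, ¬ s.1.card ≤ d → ψ' s = ⟨c s, Fin.last (k + 1)⟩ :=
    fun s hs => dif_neg hs
  refine ⟨ψ', ?_, ?_⟩
  · intro s t hst
    have hst' : s.1 ⊆ t.1 := hst
    by_cases ht : t.1.card ≤ d
    · have hs : s.1.card ≤ d := (Finset.card_le_card hst').trans ht
      rw [h1 s hs, h1 t ht]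
      exact QG.up_mono _ (hm hst')
    · by_cases hs : s.1.card ≤ d
      · rw [h1 s hs, h2 t ht]
        right
        exact (ψ ⟨s.1, s.2.1, hs⟩).lev.2
      · have hcard : t.1.card ≤ s.1.card := by
          have := t.2.2
          push Not at hs
          omega
        have : s = t := Subtype.ext (Finset.eq_of_subset_of_card_le hst' hcard)
        rw [this]
  · intro g s
    have hc2 : (g • s).1.card = s.1.card := card_tr g s.1
    by_cases hs : s.1.card ≤ d
    · have hs' : (g • s).1.card ≤ d := by rw [hc2]; exact hs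
      rw [h1 s hs, h1 _ hs', ← QG.up_smul]
      exact congrArg _ (he g ⟨s.1, s.2.1, hs⟩)
    · have hs' : ¬ (g • s).1.card ≤ d := by rw [hc2]; exact hs
      rw [h2 s hs, h2 _ hs', hc]
      rfl

theorem skel_one {L : SC V} [IsGSC G L] (hL : NoRep G L) : XindLE G (skel L 1).FP 0 := by
  have := (hL.skel 1).free
  obtain ⟨c, hc⟩ := exists_label (G := G) (skel L 1).FP
  refine ⟨fun s => ⟨c s, 0⟩, ?_, ?_⟩
  · intro s t hst
    have hst' : s.1 ⊆ t.1 := hst
    have hcard : t.1.card ≤ s.1.card := by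
      have h1 := t.2.2
      have h2 := Finset.card_pos.mpr ((skel L 1).nonempty s.1 s.2)
      omega
    have : s = t := Subtype.ext (Finset.eq_of_subset_of_card_le hst' hcard)
    rw [this]
  · intro g s
    show (⟨c (g • s), 0⟩ : QG G 0) = g • ⟨c s, 0⟩
    rw [hc]; rfl

theorem skel_zero {L : SC V} [IsGSC G L] (k : ℕ) : XindLE G (skel L 0).FP k := by
  have hemp : ∀ s : (skel L 0).FP, False := by
    intro s
    have h1 := s.2.2
    have h2 := Finset.card_pos.mpr ((skel L 0).nonempty s.1 s.2)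
    omega
  exact ⟨fun s => (hemp s).elim, fun s => (hemp s).elim, fun _ s => (hemp s).elim⟩

/-- some skeleton has cross-index exactly `n` -/
theorem exists_skel [Fintype V] {L : SC V} [IsGSC G L] (hL : NoRep G L) {n : ℕ}
    (H : ∀ l, XindLE G L.FP l → n ≤ l) : ∃ d, IsXind G (skel L d).FP n := by
  classical
  rcases Nat.eq_zero_or_pos n with rfl | hn
  · exact ⟨1, skel_one hL, fun l _ => Nat.zero_le l⟩
  · have hex : ∃ d, ¬ XindLE G (skel L d).FP (n - 1) := by
      refine ⟨Fintype.card V, fun h => ?_⟩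
      have : XindLE G L.FP (n - 1) := by
        obtain ⟨ψ, hm, he⟩ := h
        exact ⟨fun s => ψ ⟨s.1, s.2, Finset.card_le_univ _⟩, fun s t hst => hm hst,
          fun g s => he g ⟨s.1, s.2, Finset.card_le_univ _⟩⟩
      have := H _ this
      omega
    refine ⟨Nat.find hex, ?_, ?_⟩
    · have hpos : Nat.find hex ≠ 0 := by
        intro h0
        have := Nat.find_spec hex
        rw [h0] at this
        exact this (skel_zero _)
      obtain ⟨d, hd⟩ := Nat.exists_eq_succ_of_ne_zero hpos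
      have h1 : XindLE G (skel L d).FP (n - 1) := by
        by_contra h
        have := Nat.find_min' hex h
        omega
      have h2 := skel_succ hL h1
      have h3 : n - 1 + 1 = n := by omega
      rw [h3] at h2
      rw [hd]
      exact h2
    · intro l hl
      by_contra hlt
      push Not at hlt
      exact Nat.find_spec hex (hl.mono (by omega))

end skel

section usum

variable {V : Type u} {W : Type u}

/-- disjoint union of complexes -/
def usum (K : SC V) (L : SC W) : SC (V ⊕ W) where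
  faces := {s | s.Nonempty ∧ ((∃ t ∈ K.faces, ∀ v ∈ s, ∃ u ∈ t, v = Sum.inl u) ∨
    (∃ t ∈ L.faces, ∀ v ∈ s, ∃ u ∈ t, v = Sum.inr u))}
  nonempty _ h := h.1
  down s h t hts ht := by
    refine ⟨ht, ?_⟩
    rcases h.2 with ⟨u, hu, h⟩ | ⟨u, hu, h⟩
    · exact Or.inl ⟨u, hu, fun v hv => h v (hts hv)⟩
    · exact Or.inr ⟨u, hu, fun v hv => h v (hts hv)⟩

variable {G : Type u} [Group G] [MulAction G V] [MulAction G W]

instance {K : SC V} {L : SC W} [IsGSC G K] [IsGSC G L] : IsGSC G (usum K L) where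
  tr_mem g s h := by
    obtain ⟨⟨x, hx⟩, h⟩ := h
    refine ⟨⟨g • x, smul_mem_tr hx⟩, ?_⟩
    rcases h with ⟨u, hu, h⟩ | ⟨u, hu, h⟩
    · left
      refine ⟨tr g u, IsGSC.tr_mem g u hu, fun v hv => ?_⟩
      rw [mem_tr] at hv
      obtain ⟨w, hw, e⟩ := h _ hv
      refine ⟨g • w, smul_mem_tr hw, ?_⟩
      rw [inv_smul_eq_iff] at e
      rw [e]; rfl
    · right
      refine ⟨tr g u, IsGSC.tr_mem g u hu, fun v hv => ?_⟩
      rw [mem_tr] at hv
      obtain ⟨w, hw, e⟩ := h _ hv
      refine ⟨g • w, smul_mem_tr hw, ?_⟩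
      rw [inv_smul_eq_iff] at e
      rw [e]; rfl

theorem usum_noRep {K : SC V} {L : SC W} (hK : NoRep G K) (hL : NoRep G L) :
    NoRep G (usum K L) := by
  rintro σ ⟨-, h⟩ x hx g hg
  rcases h with ⟨u, hu, h⟩ | ⟨u, hu, h⟩
  · obtain ⟨v, hv, rfl⟩ := h _ hx
    obtain ⟨w, hw, e⟩ := h _ hg
    have e' : g • v = w := Sum.inl.inj e
    exact hK u hu v hv g (by rw [e']; exact hw)
  · obtain ⟨v, hv, rfl⟩ := h _ hx
    obtain ⟨w, hw, e⟩ := h _ hg
    have e' : g • v = w := Sum.inr.inj e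
    exact hL u hu v hv g (by rw [e']; exact hw)

theorem usum_xind {K : SC V} {L : SC W} [IsGSC G K] [IsGSC G L] {n : ℕ}
    (h1 : XindLE G K.FP n) (h2 : XindLE G L.FP n) : XindLE G (usum K L).FP n := by
  classical
  obtain ⟨ψ, hm, he⟩ := h1
  obtain ⟨φ, hm', he'⟩ := h2
  have hl : ∀ s : (usum K L).FP, s.1.toLeft.Nonempty → s.1.toLeft ∈ K.faces := by
    rintro ⟨s, hs, h⟩ ⟨x, hx⟩
    rw [Finset.mem_toLeft] at hx
    rcases h with ⟨t, ht, h⟩ | ⟨t, ht, h⟩
    · refine K.down t ht _ ?_ ⟨x, Finset.mem_toLeft.mpr hx⟩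
      intro v hv
      rw [Finset.mem_toLeft] at hv
      obtain ⟨u, hu, e⟩ := h _ hv
      rw [Sum.inl.inj e]; exact hu
    · obtain ⟨u, hu, e⟩ := h _ hx
      cases e
  have hr : ∀ s : (usum K L).FP, ¬ s.1.toLeft.Nonempty → s.1.toRight ∈ L.faces := by
    rintro ⟨s, ⟨x, hx⟩, h⟩ hne
    have hx' : ∃ w, x = Sum.inr w := by
      rcases x with v | w
      · exact absurd ⟨v, Finset.mem_toLeft.mpr hx⟩ hne
      · exact ⟨w, rfl⟩
    obtain ⟨w, rfl⟩ := hx'
    rcases h with ⟨t, ht, h⟩ | ⟨t, ht, h⟩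
    · obtain ⟨u, hu, e⟩ := h _ hx
      cases e
    · refine L.down t ht _ ?_ ⟨w, Finset.mem_toRight.mpr hx⟩
      intro v hv
      rw [Finset.mem_toRight] at hv
      obtain ⟨u, hu, e⟩ := h _ hv
      rw [Sum.inr.inj e]; exact hu
  have hnot : ∀ s t : (usum K L).FP, s.1 ⊆ t.1 → ¬ s.1.toLeft.Nonempty → ¬ t.1.toLeft.Nonempty := by
    rintro s ⟨t, ht0, h⟩ hst hns ⟨y, hy⟩
    rw [Finset.mem_toLeft] at hy
    obtain ⟨x, hx⟩ := (usum K L).nonempty s.1 s.2
    rcases x with v | w
    · exact hns ⟨v, Finset.mem_toLeft.mpr hx⟩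
    · rcases h with ⟨u, hu, h⟩ | ⟨u, hu, h⟩
      · obtain ⟨u, hu, e⟩ := h _ (hst hx)
        cases e
      · obtain ⟨u, hu, e⟩ := h _ hy
        cases e
  let Ψ : (usum K L).FP → QG G n := fun s =>
    if h : s.1.toLeft.Nonempty then ψ ⟨s.1.toLeft, hl s h⟩ else φ ⟨s.1.toRight, hr s h⟩
  have e1 : ∀ s (h : s.1.toLeft.Nonempty), Ψ s = ψ ⟨s.1.toLeft, hl s h⟩ := fun s h => dif_pos h
  have e2 : ∀ s (h : ¬ s.1.toLeft.Nonempty), Ψ s = φ ⟨s.1.toRight, hr s h⟩ := fun s h => dif_neg h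
  have tl : ∀ (g : G) (s : Finset (V ⊕ W)), (tr g s).toLeft = tr g s.toLeft := by
    intro g s
    ext v
    rw [Finset.mem_toLeft, mem_tr, mem_tr, Finset.mem_toLeft]
    rfl
  have trr : ∀ (g : G) (s : Finset (V ⊕ W)), (tr g s).toRight = tr g s.toRight := by
    intro g s
    ext v
    rw [Finset.mem_toRight, mem_tr, mem_tr, Finset.mem_toRight]
    rfl
  refine ⟨Ψ, ?_, ?_⟩
  · intro s t hst
    have hst' : s.1 ⊆ t.1 := hst
    by_cases hs : s.1.toLeft.Nonempty
    · have ht : t.1.toLeft.Nonempty := hs.mono (Finset.toLeft_subset_toLeft hst')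
      rw [e1 s hs, e1 t ht]
      exact hm (Finset.toLeft_subset_toLeft hst')
    · have ht := hnot s t hst' hs
      rw [e2 s hs, e2 t ht]
      exact hm' (Finset.toRight_subset_toRight hst')
  · intro g s
    have h3 : (g • s).1.toLeft = tr g s.1.toLeft := tl g s.1
    have h4 : (g • s).1.toRight = tr g s.1.toRight := trr g s.1
    by_cases hs : s.1.toLeft.Nonempty
    · have hs' : (g • s).1.toLeft.Nonempty := by
        rw [h3]
        obtain ⟨x, hx⟩ := hs
        exact ⟨g • x, smul_mem_tr hx⟩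
      rw [e1 s hs, e1 _ hs']
      let A : K.FP := ⟨(g • s).1.toLeft, hl _ hs'⟩
      let B : K.FP := ⟨s.1.toLeft, hl s hs⟩
      have e3 : A = g • B := Subtype.ext h3
      exact (congrArg ψ e3).trans (he g _)
    · have hs' : ¬ (g • s).1.toLeft.Nonempty := by
        rw [h3]
        rintro ⟨x, hx⟩
        rw [mem_tr] at hx
        exact hs ⟨_, hx⟩
      rw [e2 s hs, e2 _ hs']
      let A : L.FP := ⟨(g • s).1.toRight, hr _ hs'⟩
      let B : L.FP := ⟨s.1.toRight, hr s hs⟩
      have e3 : A = g • B := Subtype.ext h4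
      exact (congrArg φ e3).trans (he' g _)

theorem usum_xind_left {K : SC V} {L : SC W} [IsGSC G K] [IsGSC G L] {n : ℕ}
    (h : XindLE G (usum K L).FP n) : XindLE G K.FP n := by
  classical
  obtain ⟨ψ, hm, he⟩ := h
  have h1 : ∀ s : K.FP, s.1.map ⟨Sum.inl, Sum.inl_injective⟩ ∈ (usum K L).faces := by
    intro s
    refine ⟨(K.nonempty s.1 s.2).map, Or.inl ⟨s.1, s.2, fun v hv => ?_⟩⟩
    obtain ⟨u, hu, rfl⟩ := Finset.mem_map.mp hv
    exact ⟨u, hu, rfl⟩
  refine ⟨fun s => ψ ⟨_, h1 s⟩, fun s t hst => hm (Finset.map_subset_map.mpr hst), fun g s => ?_⟩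
  refine (congrArg ψ ?_).trans (he g ⟨_, h1 s⟩)
  apply Subtype.ext
  show (tr g s.1).map _ = tr g (s.1.map _)
  ext v
  rw [mem_tr, Finset.mem_map, Finset.mem_map]
  constructor
  · rintro ⟨u, hu, rfl⟩
    rw [mem_tr] at hu
    exact ⟨g⁻¹ • u, hu, rfl⟩
  · rintro ⟨u, hu, e⟩
    refine ⟨g • u, smul_mem_tr hu, ?_⟩
    have e' : (Sum.inl u : V ⊕ W) = g⁻¹ • v := e
    show (Sum.inl (g • u) : V ⊕ W) = v
    rw [eq_inv_smul_iff] at e'
    exact e'

end usum

section faceorder

theorem face_order {G : Type u} [Group G] {P : Type v} [PartialOrder P] [MulAction G P]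
    [IsGPoset G P] {k : ℕ} (h : XindLE G P k) : XindLE G (orderComplex P).FP k := by
  classical
  have hmax : ∀ s : (orderComplex P).FP, ∃ x ∈ s.1, ∀ y ∈ s.1, y ≤ x := by
    intro s
    obtain ⟨m, hm⟩ := s.1.exists_maximal s.2.1
    refine ⟨m, hm.1, fun y hy => ?_⟩
    rcases s.2.2 m hm.1 y hy with h' | h'
    · exact hm.2 hy h'
    · exact h'
  choose mx h1 h2 using hmax
  obtain ⟨ψ, hm, he⟩ := h
  refine ⟨fun s => ψ (mx s), fun s t hst => hm (h2 t _ (hst (h1 s))), fun g s => ?_⟩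
  show ψ (mx (g • s)) = g • ψ (mx s)
  rw [← he]
  congr 1
  apply le_antisymm
  · have h3 := h1 (g • s)
    rw [SC.FP.smul_val, mem_tr] at h3
    have h4 := IsGPoset.smul_le g (h2 s _ h3)
    rwa [smul_inv_smul] at h4
  · exact h2 (g • s) _ (smul_mem_tr (h1 s))

end faceorder

/-- For every nontrivial finite group and all `1 ≤ m < n` there is a finite free `G`-simplicial
complex `K` with `ind K = m` and `Xind F(K) = n`. -/
theorem exists_cgap (G : Type u) [Group G] [Fintype G] [Nontrivial G] {m n : ℕ} (hm : 1 ≤ m)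
    (hmn : m < n) : ∃ X : FreeSC G, IsInd G X.K m ∧ IsXind G X.face.P n := by
  obtain ⟨V, _, _, L, _, hne, hL, hvert, H, F, a, hF, ha, hFa⟩ := exists_ctower (G := G) n
  obtain ⟨d, hd1, hd2⟩ := exists_skel hL H
  have hE : NoRep G (EG G m) := by
    intro σ hσ v hv g hg
    rcases hσ.2 v hv _ hg with (h | h) | (h | h)
    · exact IsFree.eq_one g v h.symm
    · exact absurd h (lt_irrefl _)
    · exact IsFree.eq_one g v h
    · exact absurd h (lt_irrefl _)
  have hfree := (usum_noRep (hL.skel d) hE).free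
  refine ⟨⟨V ⊕ QG G m, usum (skel L d) (EG G m)⟩, ⟨?_, ?_⟩, ⟨?_, ?_⟩⟩
  · show CtsMap G (usum (skel L d) (EG G m)) (EG G m)
    have h1 : SimpMap G (skel L d) L :=
      ⟨id, fun _ _ => rfl, fun s hs => ⟨s, hs.1, fun y => ⟨fun hy => ⟨y, hy, rfl⟩, by
        rintro ⟨x, hx, rfl⟩; exact hx⟩⟩⟩
    have hA : CtsMap G (skel L d) (EG G m) :=
      ((ctsMap_of_simpMap h1).comp (ctsMap_of_onMap hF)).comp (ctsMap_of_simpMap (simpMap_up hm))
    have hB : CtsMap G (EG G m) (EG G m) := ctsMap_of_simpMap (simpMap_up le_rfl)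
    exact ctsMap_sum (fun s hs => hs.2) hA hB
  · intro l hl
    have hl' : CtsMap G (usum (skel L d) (EG G m)) (EG G l) := hl
    have h5 : SimpMap G (EG G m) (usum (skel L d) (EG G m)) := by
      classical
      refine ⟨Sum.inr, fun _ _ => rfl, fun s hs => ⟨s.map ⟨Sum.inr, Sum.inr_injective⟩,
        ⟨hs.1.map, Or.inr ⟨s, hs, fun v hv => ?_⟩⟩, fun y => ?_⟩⟩
      · obtain ⟨u, hu, rfl⟩ := Finset.mem_map.mp hv
        exact ⟨u, hu, rfl⟩
      · rw [Finset.mem_map]
        rfl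
    exact dold ((ctsMap_of_simpMap h5).comp hl')
  · show XindLE G (usum (skel L d) (EG G m)).FP n
    exact usum_xind hd1 ((face_order ⟨id, monotone_id, fun _ _ => rfl⟩ : XindLE G (EG G m).FP m).mono
      hmn.le)
  · intro l hl
    have hl' : XindLE G (usum (skel L d) (EG G m)).FP l := hl
    exact hd2 (usum_xind_left hl')

end Pool.Agent.R126.Ix
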