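import Mathlib

/-!
# Equivariant indices of posets and simplicial complexes: definitions

`G` is a group (finite in the applications).  Simplicial complexes are abstract, on a vertex type
`V`; the geometric realisation of a finite complex is the usual subset of `V → ℝ`.
-/

set_option autoImplicit false

namespace Pool.Agent.R126.Ix

open scoped BigOperators

universe u v w

/-! ## The posets `Q_n G` -/

/-- The ground set `G × {0,…,n}` of the poset `Q_n G`. -/
@[ext]
structure QG (G : Type u) (n : ℕ) : Type u where
  /-- group coordinate -/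
  g : G
  /-- level -/
  lev : Fin (n + 1)

namespace QG

/-- `QG G n` is in bijection with `G × Fin (n+1)`. -/
def equivProd (G : Type u) (n : ℕ) : QG G n ≃ G × Fin (n + 1) where
  toFun a := (a.g, a.lev)
  invFun a := ⟨a.1, a.2⟩
  left_inv _ := rfl
  right_inv _ := rfl

instance (G : Type u) [Fintype G] (n : ℕ) : Fintype (QG G n) :=
  Fintype.ofEquiv _ (equivProd G n).symm

instance (G : Type u) [Finite G] (n : ℕ) : Finite (QG G n) :=
  Finite.of_equiv _ (equivProd G n).symm

/-- `(g,i) < (h,j)` iff `i < j`. -/
instance (G : Type u) (n : ℕ) : PartialOrder (QG G n) where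
  le a b := a = b ∨ a.lev < b.lev
  lt a b := a.lev < b.lev
  le_refl a := Or.inl rfl
  le_trans a b c h1 h2 := by
    rcases h1 with rfl | h1
    · exact h2
    · rcases h2 with rfl | h2
      · exact Or.inr h1
      · exact Or.inr (h1.trans h2)
  le_antisymm a b h1 h2 := by
    rcases h1 with rfl | h1
    · rfl
    · rcases h2 with rfl | h2
      · rfl
      · exact absurd (h1.trans h2) (lt_irrefl _)
  lt_iff_le_not_ge a b := by
    constructor
    · intro h
      refine ⟨Or.inr h, ?_⟩
      rintro (rfl | h')
      · exact lt_irrefl _ h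
      · exact lt_irrefl _ (h.trans h')
    · rintro ⟨rfl | h, h'⟩
      · exact absurd (Or.inl rfl) h'
      · exact h

theorem le_iff {G : Type u} {n : ℕ} {a b : QG G n} : a ≤ b ↔ a = b ∨ a.lev < b.lev := Iff.rfl

theorem lt_iff {G : Type u} {n : ℕ} {a b : QG G n} : a < b ↔ a.lev < b.lev := Iff.rfl

/-- `g • (h,i) = (g h, i)`. -/
instance (G : Type u) [Group G] (n : ℕ) : MulAction G (QG G n) where
  smul g a := ⟨g * a.g, a.lev⟩
  one_smul a := by
    show (⟨1 * a.g, a.lev⟩ : QG G n) = a
    rw [one_mul]
  mul_smul g h a := by
    show (⟨g * h * a.g, a.lev⟩ : QG G n) = ⟨g * (h * a.g), a.lev⟩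
    rw [mul_assoc]

@[simp] theorem smul_g {G : Type u} [Group G] {n : ℕ} (g : G) (a : QG G n) :
    (g • a).g = g * a.g := rfl

@[simp] theorem smul_lev {G : Type u} [Group G] {n : ℕ} (g : G) (a : QG G n) :
    (g • a).lev = a.lev := rfl

end QG

/-! ## `G`-posets -/

/-- The action of `G` on the poset `P` is order preserving. -/
class IsGPoset (G : Type u) (P : Type v) [Group G] [PartialOrder P] [MulAction G P] : Prop where
  smul_le : ∀ (g : G) {x y : P}, x ≤ y → g • x ≤ g • y

/-- The action of `G` on `P` is free: only the identity fixes a point. -/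
class IsFree (G : Type u) (P : Type v) [Group G] [MulAction G P] : Prop where
  eq_one : ∀ (g : G) (x : P), g • x = x → g = 1

instance (G : Type u) [Group G] (n : ℕ) : IsGPoset G (QG G n) where
  smul_le g x y h := by
    rcases h with rfl | h
    · exact Or.inl rfl
    · exact Or.inr h

instance (G : Type u) [Group G] (n : ℕ) : IsFree G (QG G n) where
  eq_one g x h := by
    have h1 : g * x.g = x.g := congrArg QG.g h
    exact mul_eq_right.mp h1

/-- There is a `G`-map (order preserving and equivariant) `P → Q_n G`. -/
def XindLE (G : Type u) (P : Type v) [Group G] [PartialOrder P] [MulAction G P] (n : ℕ) : Prop :=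
  ∃ ψ : P → QG G n, Monotone ψ ∧ ∀ (g : G) (x : P), ψ (g • x) = g • ψ x

/-- `Xind P = n`: `n` is the least number for which there is a `G`-map `P → Q_n G`. -/
def IsXind (G : Type u) (P : Type v) [Group G] [PartialOrder P] [MulAction G P] (n : ℕ) : Prop :=
  IsLeast {k | XindLE G P k} n

/-! ## Simplicial complexes -/

/-- An abstract simplicial complex with vertices in `V` (all faces are nonempty). -/
structure SC (V : Type v) where
  /-- the simplices -/
  faces : Set (Finset V)
  nonempty : ∀ s ∈ faces, s.Nonempty
  down : ∀ s ∈ faces, ∀ t : Finset V, t ⊆ s → t.Nonempty → t ∈ faces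

namespace SC

variable {V : Type v} {W : Type w}

/-- The geometric realisation: nonnegative functions on the vertices with sum one, whose support is
contained in a simplex. -/
def real [Fintype V] (K : SC V) : Set (V → ℝ) :=
  {x | (∀ v, 0 ≤ x v) ∧ ∑ v, x v = 1 ∧ ∃ s ∈ K.faces, ∀ v, x v ≠ 0 → v ∈ s}

/-- The ground set of the face poset `F(K)`: the nonempty simplices. -/
def FP (K : SC V) : Type v := {s : Finset V // s ∈ K.faces}

/-- Faces are ordered by inclusion. -/
instance (K : SC V) : PartialOrder K.FP := inferInstanceAs (PartialOrder {s : Finset V // s ∈ K.faces})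

instance [Finite V] (K : SC V) : Finite K.FP := inferInstanceAs (Finite {s : Finset V // s ∈ K.faces})

noncomputable instance [Finite V] (K : SC V) : Fintype K.FP := Fintype.ofFinite _

end SC

/-- The translate of a finite set by a group element. -/
def tr {G : Type u} {V : Type v} [Group G] [MulAction G V] (g : G) (s : Finset V) : Finset V :=
  s.map (MulAction.toPerm g).toEmbedding

theorem mem_tr {G : Type u} {V : Type v} [Group G] [MulAction G V] {g : G} {s : Finset V} {v : V} :
    v ∈ tr g s ↔ g⁻¹ • v ∈ s := by
  unfold tr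
  rw [Finset.mem_map]
  constructor
  · rintro ⟨a, ha, rfl⟩
    show g⁻¹ • g • a ∈ s
    rwa [inv_smul_smul]
  · intro h
    exact ⟨g⁻¹ • v, h, smul_inv_smul g v⟩

theorem smul_mem_tr {G : Type u} {V : Type v} [Group G] [MulAction G V] {g : G} {s : Finset V}
    {v : V} (hv : v ∈ s) : g • v ∈ tr g s := by
  rw [mem_tr, inv_smul_smul]; exact hv

theorem tr_mono {G : Type u} {V : Type v} [Group G] [MulAction G V] {g : G} {s t : Finset V}
    (h : s ⊆ t) : tr g s ⊆ tr g t := Finset.map_subset_map.mpr h

theorem tr_one {G : Type u} {V : Type v} [Group G] [MulAction G V] (s : Finset V) :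
    tr (1 : G) s = s := by
  ext v; rw [mem_tr, inv_one, one_smul]

theorem tr_mul {G : Type u} {V : Type v} [Group G] [MulAction G V] (g h : G) (s : Finset V) :
    tr (g * h) s = tr g (tr h s) := by
  ext v; rw [mem_tr, mem_tr, mem_tr, mul_inv_rev, mul_smul]

/-- `K` is a `G`-simplicial complex: `G` acts on the vertices and permutes the simplices. -/
class IsGSC (G : Type u) {V : Type v} [Group G] [MulAction G V] (K : SC V) : Prop where
  tr_mem : ∀ (g : G), ∀ s ∈ K.faces, tr g s ∈ K.faces

/-- The induced action on the face poset. -/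
instance SC.FP.mulAction (G : Type u) {V : Type v} [Group G] [MulAction G V] (K : SC V)
    [IsGSC G K] : MulAction G K.FP where
  smul g s := ⟨tr g s.1, IsGSC.tr_mem g s.1 s.2⟩
  one_smul s := Subtype.ext (tr_one s.1)
  mul_smul g h s := Subtype.ext (tr_mul g h s.1)

theorem SC.FP.smul_val {G : Type u} {V : Type v} [Group G] [MulAction G V] {K : SC V}
    [IsGSC G K] (g : G) (s : K.FP) : (g • s).1 = tr g s.1 := rfl

theorem SC.FP.le_iff {V : Type v} {K : SC V} {s t : K.FP} : s ≤ t ↔ s.1 ⊆ t.1 := Iff.rfl

instance (G : Type u) {V : Type v} [Group G] [MulAction G V] (K : SC V) [IsGSC G K] :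
    IsGPoset G K.FP where
  smul_le g _ _ h := tr_mono (g := g) h

/-- The order complex `Δ(P)`: simplices are the nonempty finite chains. -/
def orderComplex (P : Type v) [PartialOrder P] : SC P where
  faces := {s | s.Nonempty ∧ ∀ x ∈ s, ∀ y ∈ s, x ≤ y ∨ y ≤ x}
  nonempty _ h := h.1
  down _ h _ hts ht := ⟨ht, fun x hx y hy => h.2 x (hts hx) y (hts hy)⟩

instance (G : Type u) (P : Type v) [Group G] [PartialOrder P] [MulAction G P] [IsGPoset G P] :
    IsGSC G (orderComplex P) where
  tr_mem g s h := by
    refine ⟨?_, ?_⟩
    · obtain ⟨x, hx⟩ := h.1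
      exact ⟨g • x, smul_mem_tr hx⟩
    · intro x hx y hy
      rw [mem_tr] at hx hy
      rcases h.2 _ hx _ hy with h' | h'
      · left
        have := IsGPoset.smul_le g h'
        rwa [smul_inv_smul, smul_inv_smul] at this
      · right
        have := IsGPoset.smul_le g h'
        rwa [smul_inv_smul, smul_inv_smul] at this

/-! ## Continuous equivariant maps and the index -/

/-- The linear action of `G` on functions on the vertices. -/
def act {G : Type u} {V : Type v} [Group G] [MulAction G V] (g : G) (x : V → ℝ) : V → ℝ :=
  fun v => x (g⁻¹ • v)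

/-- There is a continuous `G`-equivariant map `|K| → |L|`. -/
def CtsMap (G : Type u) {V : Type v} {W : Type w} [Group G] [MulAction G V] [MulAction G W]
    [Fintype V] [Fintype W] (K : SC V) (L : SC W) : Prop :=
  ∃ f : K.real → L.real, Continuous f ∧
    ∀ (g : G) (x y : K.real), (y : V → ℝ) = act g (x : V → ℝ) →
      (f y : W → ℝ) = act g (f x : W → ℝ)

/-- `E_k G`, the `(k+1)`-fold join of the discrete space `G`, as a simplicial complex: its vertices
are `G × {0,…,k}`, and its simplices are the nonempty sets with at most one vertex in each level,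
i.e. the nonempty chains of `Q_k G`. -/
abbrev EG (G : Type u) (k : ℕ) : SC (QG G k) := orderComplex (QG G k)

/-- There is a continuous `G`-equivariant map `|K| → E_k G`. -/
def IndLE (G : Type u) {V : Type v} [Group G] [Fintype G] [MulAction G V] [Fintype V] (K : SC V)
    (k : ℕ) : Prop := CtsMap G K (EG G k)

/-- `ind K = m`. -/
def IsInd (G : Type u) {V : Type v} [Group G] [Fintype G] [MulAction G V] [Fintype V] (K : SC V)
    (m : ℕ) : Prop := IsLeast {k | IndLE G K k} m

/-- There is a `G`-equivariant simplicial map `K → L`. -/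
def SimpMap (G : Type u) {V : Type v} {W : Type w} [Group G] [MulAction G V] [MulAction G W]
    (K : SC V) (L : SC W) : Prop :=
  ∃ f : V → W, (∀ (g : G) (x : V), f (g • x) = g • f x) ∧
    ∀ s ∈ K.faces, ∃ t ∈ L.faces, ∀ y, y ∈ t ↔ ∃ x ∈ s, f x = y

/-- There is a `G`-equivariant simplicial map `K → E_k G`. -/
def SindLE (G : Type u) {V : Type v} [Group G] [MulAction G V] (K : SC V)
    (k : ℕ) : Prop := SimpMap G K (EG G k)

/-- `sind K = m`. -/
def IsSind (G : Type u) {V : Type v} [Group G] [MulAction G V] (K : SC V)
    (m : ℕ) : Prop := IsLeast {k | SindLE G K k} m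

/-! ## Bundled versions -/

/-- A finite free `G`-poset. -/
structure FreePoset (G : Type u) [Group G] where
  /-- ground set -/
  P : Type u
  [fin : Fintype P]
  [po : PartialOrder P]
  [act : MulAction G P]
  [isG : IsGPoset G P]
  [free : IsFree G P]

attribute [instance] FreePoset.fin FreePoset.po FreePoset.act FreePoset.isG FreePoset.free

/-- A finite free `G`-simplicial complex (`g σ ≠ σ` for every simplex `σ` and every `g ≠ 1`, i.e.
the action on the geometric realisation is free). -/
structure FreeSC (G : Type u) [Group G] where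
  /-- vertex set -/
  V : Type u
  [fin : Fintype V]
  [act : MulAction G V]
  /-- the simplicial complex -/
  K : SC V
  [isG : IsGSC G K]
  [free : IsFree G K.FP]

attribute [instance] FreeSC.fin FreeSC.act FreeSC.isG FreeSC.free

/-- an order preserving free action on a finite poset is free on chains -/
instance (G : Type u) (P : Type v) [Group G] [PartialOrder P] [MulAction G P] [IsGPoset G P]
    [IsFree G P] : IsFree G (orderComplex P).FP where
  eq_one g s h := by
    -- the least element of the chain `s` is fixed
    obtain ⟨m, hm⟩ := s.1.exists_minimal s.2.1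
    have h1 : tr g s.1 = s.1 := congrArg Subtype.val h
    have h2 : g • m ∈ s.1 := by rw [← h1]; exact smul_mem_tr hm.1
    have h3 : g⁻¹ • m ∈ s.1 := by
      have : m ∈ tr g s.1 := by rw [h1]; exact hm.1
      rwa [mem_tr] at this
    have h4 : m ≤ g • m := by
      rcases s.2.2 m hm.1 _ h2 with h' | h'
      · exact h'
      · exact hm.2 h2 h'
    have h5 : m ≤ g⁻¹ • m := by
      rcases s.2.2 m hm.1 _ h3 with h' | h'
      · exact h'
      · exact hm.2 h3 h'
    have h6 : g • m ≤ m := by
      have := IsGPoset.smul_le g h5
      rwa [smul_inv_smul] at this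
    exact IsFree.eq_one g m (le_antisymm h6 h4)

/-- The order complex of a free finite `G`-poset, as a free finite `G`-simplicial complex. -/
def FreePoset.Δ {G : Type u} [Group G] (X : FreePoset G) : FreeSC G where
  V := X.P
  K := orderComplex X.P

/-- The face poset of a finite free `G`-simplicial complex, as a free finite `G`-poset. -/
noncomputable def FreeSC.face {G : Type u} [Group G] (X : FreeSC G) : FreePoset G where
  P := X.K.FP

/-- Barycentric subdivision `sd K = Δ(F(K))`. -/
noncomputable def FreeSC.sd {G : Type u} [Group G] (X : FreeSC G) : FreeSC G := X.face.Δ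

end Pool.Agent.R126.Ix
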