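import Pool.Agent.R126.Ix.Basic

set_option autoImplicit false

namespace Pool.Agent.R126.Ix

open scoped BigOperators Topology
open Set

universe u v w

section glue

variable {G : Type u} [Group G] {V : Type v} [MulAction G V] {W : Type w} [MulAction G W]
  [Fintype V] [Fintype W]

/-- Equivariant gluing. -/
theorem glueMap {ι : Type*} [Finite ι] {K : SC V} [IsGSC G K] {L : SC W}
    (C : ι → Set (V → ℝ)) (hC : ∀ i, IsClosed (C i)) (f : ι → (V → ℝ) → (W → ℝ))
    (hcov : ∀ x ∈ K.real, ∃ i, x ∈ C i)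
    (hf : ∀ i, ContinuousOn (f i) (K.real ∩ C i))
    (hmaps : ∀ i, ∀ x ∈ K.real, x ∈ C i → f i x ∈ L.real)
    (hag : ∀ i j, ∀ x ∈ K.real, x ∈ C i → x ∈ C j → f i x = f j x)
    (hequi : ∀ (g : G) i, ∀ x ∈ K.real, x ∈ C i →
      ∃ i', act g x ∈ C i' ∧ f i' (act g x) = act g (f i x)) :
    ∃ F : (V → ℝ) → (W → ℝ), OnMap G K L F ∧ ∀ i, ∀ x ∈ K.real, x ∈ C i → F x = f i x := by
  obtain ⟨F, hF1, hF2⟩ := glue (fun i => K.real ∩ C i) (fun i => (isClosed_real K).inter (hC i)) f hf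
    (fun i j x hx hy => hag i j x hx.1 hx.2 hy.2) (0 : W → ℝ)
  refine ⟨F, ⟨hF1.mono ?_, ?_, ?_⟩, fun i x hx hxi => hF2 i x ⟨hx, hxi⟩⟩
  · intro x hx
    obtain ⟨i, hi⟩ := hcov x hx
    exact mem_iUnion.mpr ⟨i, hx, hi⟩
  · intro x hx
    obtain ⟨i, hi⟩ := hcov x hx
    rw [hF2 i x ⟨hx, hi⟩]
    exact hmaps i x hx hi
  · intro g x hx
    obtain ⟨i, hi⟩ := hcov x hx
    obtain ⟨i', hi', he⟩ := hequi g i x hx hi
    rw [hF2 i x ⟨hx, hi⟩, hF2 i' _ ⟨act_mem g hx, hi'⟩, he]

omit [Fintype V] in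
theorem act_add (g : G) (x y : V → ℝ) : act g (x + y) = act g x + act g y := rfl

omit [Fintype V] in
theorem act_smul (g : G) (c : ℝ) (x : V → ℝ) : act g (c • x) = c • act g x := rfl

/-- Disjoint unions. -/
theorem ctsMap_sum {U : Type*} [MulAction G U] [Fintype U] {K : SC V} [IsGSC G K] {L : SC W}
    [IsGSC G L] {M : SC (V ⊕ W)} [IsGSC G M] {E : SC U}
    (hM : ∀ s ∈ M.faces, (∃ t ∈ K.faces, ∀ v ∈ s, ∃ u ∈ t, v = Sum.inl u) ∨
      (∃ t ∈ L.faces, ∀ v ∈ s, ∃ u ∈ t, v = Sum.inr u))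
    (h1 : CtsMap G K E) (h2 : CtsMap G L E) : CtsMap G M E := by
  obtain ⟨f1, h1⟩ := onMap_of_ctsMap h1
  obtain ⟨f2, h2⟩ := onMap_of_ctsMap h2
  have hl : ∀ x ∈ M.real, (∀ w, x (Sum.inr w) = 0) → (fun v => x (Sum.inl v)) ∈ K.real := by
    rintro x ⟨h0, hs, s, hsM, hsup⟩ hw
    have hsum : ∑ v, x (Sum.inl v) = 1 := by
      rw [← hs, Fintype.sum_sum_type]
      simp [hw]
    refine ⟨fun v => h0 _, hsum, ?_⟩
    rcases hM s hsM with ⟨t, ht, h⟩ | ⟨t, ht, h⟩
    · refine ⟨t, ht, fun v hv => ?_⟩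
      obtain ⟨u, hu, e⟩ := h _ (hsup _ hv)
      rw [Sum.inl.inj e]; exact hu
    · exfalso
      have : ∑ v, x (Sum.inl v) = 0 := by
        refine Finset.sum_eq_zero fun v _ => ?_
        by_contra hv
        obtain ⟨u, _, e⟩ := h _ (hsup _ hv)
        cases e
      rw [hsum] at this
      exact one_ne_zero this
  have hr : ∀ x ∈ M.real, (∀ v, x (Sum.inl v) = 0) → (fun v => x (Sum.inr v)) ∈ L.real := by
    rintro x ⟨h0, hs, s, hsM, hsup⟩ hw
    have hsum : ∑ v, x (Sum.inr v) = 1 := by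
      rw [← hs, Fintype.sum_sum_type]
      simp [hw]
    refine ⟨fun v => h0 _, hsum, ?_⟩
    rcases hM s hsM with ⟨t, ht, h⟩ | ⟨t, ht, h⟩
    · exfalso
      have : ∑ v, x (Sum.inr v) = 0 := by
        refine Finset.sum_eq_zero fun v _ => ?_
        by_contra hv
        obtain ⟨u, _, e⟩ := h _ (hsup _ hv)
        cases e
      rw [hsum] at this
      exact one_ne_zero this
    · refine ⟨t, ht, fun v hv => ?_⟩
      obtain ⟨u, hu, e⟩ := h _ (hsup _ hv)
      rw [Sum.inr.inj e]; exact hu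
  obtain ⟨F, hF, -⟩ := glueMap (G := G) (K := M) (L := E) (ι := Bool)
    (fun b => bif b then {x | ∀ w, x (Sum.inr w) = 0} else {x | ∀ v, x (Sum.inl v) = 0})
    (by
      rintro (_ | _)
      · simp only [cond_false, ofPred_forall]
        exact isClosed_iInter fun v => isClosed_eq (continuous_apply _) continuous_const
      · simp only [cond_true, ofPred_forall]
        exact isClosed_iInter fun v => isClosed_eq (continuous_apply _) continuous_const)
    (fun b x => bif b then f1 (fun v => x (Sum.inl v)) else f2 (fun v => x (Sum.inr v)))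
    (by
      rintro x ⟨h0, hs, s, hsM, hsup⟩
      rcases hM s hsM with ⟨t, ht, h⟩ | ⟨t, ht, h⟩
      · refine ⟨true, fun w => ?_⟩
        by_contra hv
        obtain ⟨u, _, e⟩ := h _ (hsup _ hv)
        cases e
      · refine ⟨false, fun w => ?_⟩
        by_contra hv
        obtain ⟨u, _, e⟩ := h _ (hsup _ hv)
        cases e)
    (by
      rintro (_ | _)
      · simp only [cond_false]
        exact h2.cont.comp (by fun_prop) fun x hx => hr x hx.1 hx.2
      · simp only [cond_true]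
        exact h1.cont.comp (by fun_prop) fun x hx => hl x hx.1 hx.2)
    (by
      rintro (_ | _) x hx hxc
      · exact h2.maps _ (hr x hx hxc)
      · exact h1.maps _ (hl x hx hxc))
    (by
      have key : ∀ x ∈ M.real, (∀ w, x (Sum.inr w) = 0) → (∀ v, x (Sum.inl v) = 0) → False := by
        intro x hx h3 h4
        have := hx.2.1
        rw [Fintype.sum_sum_type] at this
        simp [h3, h4] at this
      rintro (_ | _) (_ | _) x hx hxi hxj
      · rfl
      · exact absurd (key x hx hxj hxi) id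
      · exact absurd (key x hx hxi hxj) id
      · rfl)
    (by
      rintro g (_ | _) x hx hxc
      · refine ⟨false, fun v => hxc _, ?_⟩
        exact h2.equi g _ (hr x hx hxc)
      · refine ⟨true, fun v => hxc _, ?_⟩
        exact h1.equi g _ (hl x hx hxc))
  exact ctsMap_of_onMap hF

end glue

section path

variable {G : Type u} [Group G] [Fintype G]

/-- A path in `E_1 G` from the vertex `(a,0)` to the vertex `(b,0)`, through `(a,1)`. -/
noncomputable def gam (a b : G) (τ : ℝ) : QG G 1 → ℝ :=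
  (max (1 - 2 * τ) 0) • pt (⟨a, 0⟩ : QG G 1) + (max (2 * τ - 1) 0) • pt (⟨b, 0⟩ : QG G 1) +
    (1 - max (1 - 2 * τ) 0 - max (2 * τ - 1) 0) • pt (⟨a, 1⟩ : QG G 1)

omit [Group G] [Fintype G] in
theorem gam_zero (a b : G) : gam a b 0 = pt ⟨a, 0⟩ := by
  unfold gam; norm_num

omit [Group G] [Fintype G] in
theorem gam_one (a b : G) : gam a b 1 = pt ⟨b, 0⟩ := by
  unfold gam; norm_num

omit [Group G] [Fintype G] in
theorem continuous_gam (a b : G) : Continuous (gam a b) := by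
  unfold gam
  fun_prop

omit [Fintype G] in
theorem act_gam (g a b : G) (τ : ℝ) : act g (gam a b τ) = gam (g * a) (g * b) τ := by
  unfold gam
  rw [act_add, act_add, act_smul, act_smul, act_smul, act_pt, act_pt, act_pt]
  rfl

omit [Group G] in
theorem gam_mem (a b : G) {τ : ℝ} (h0 : 0 ≤ τ) (h1 : τ ≤ 1) : gam a b τ ∈ (EG G 1).real := by
  rw [mem_real_order]
  have hA : 0 ≤ max (1 - 2 * τ) 0 := le_max_right _ _
  have hB : 0 ≤ max (2 * τ - 1) 0 := le_max_right _ _
  have hC : 0 ≤ 1 - max (1 - 2 * τ) 0 - max (2 * τ - 1) 0 := by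
    rcases le_total (1 - 2 * τ) 0 with h | h
    · rw [max_eq_right h, max_eq_left (by linarith)]; linarith
    · rw [max_eq_left h, max_eq_right (by linarith)]; linarith
  have hAB : max (1 - 2 * τ) 0 = 0 ∨ max (2 * τ - 1) 0 = 0 := by
    rcases le_total (1 - 2 * τ) 0 with h | h
    · exact Or.inl (max_eq_right h)
    · exact Or.inr (max_eq_right (by linarith))
  refine ⟨fun v => ?_, ?_, ?_⟩
  · unfold gam
    simp only [Pi.add_apply, Pi.smul_apply, smul_eq_mul]
    have := pt_nonneg (⟨a, 0⟩ : QG G 1) v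
    have := pt_nonneg (⟨b, 0⟩ : QG G 1) v
    have := pt_nonneg (⟨a, 1⟩ : QG G 1) v
    positivity
  · unfold gam
    simp only [Pi.add_apply, Pi.smul_apply, smul_eq_mul, Finset.sum_add_distrib,
      ← Finset.mul_sum, sum_pt]
    ring
  · have key : ∀ u : QG G 1, gam a b τ u ≠ 0 → (u = ⟨a, 0⟩ ∧ max (1 - 2 * τ) 0 ≠ 0) ∨
        (u = ⟨b, 0⟩ ∧ max (2 * τ - 1) 0 ≠ 0) ∨ u = ⟨a, 1⟩ := by
      intro u hu
      by_contra hcon
      push Not at hcon
      obtain ⟨c1, c2, c3⟩ := hcon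
      apply hu
      unfold gam
      simp only [Pi.add_apply, Pi.smul_apply, smul_eq_mul]
      rw [pt_ne c3]
      have e1 : max (1 - 2 * τ) 0 * pt (⟨a, 0⟩ : QG G 1) u = 0 := by
        by_cases h : u = ⟨a, 0⟩
        · rw [c1 h, zero_mul]
        · rw [pt_ne h, mul_zero]
      have e2 : max (2 * τ - 1) 0 * pt (⟨b, 0⟩ : QG G 1) u = 0 := by
        by_cases h : u = ⟨b, 0⟩
        · rw [c2 h, zero_mul]
        · rw [pt_ne h, mul_zero]
      rw [e1, e2]; ring
    have zlt : (0 : Fin (1 + 1)) < 1 := by decide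
    intro u v hu hv
    rcases key u hu with ⟨rfl, h2⟩ | ⟨rfl, h2⟩ | rfl <;>
    rcases key v hv with ⟨rfl, h3⟩ | ⟨rfl, h3⟩ | rfl
    · exact Or.inl le_rfl
    · exact absurd hAB (by push Not; exact ⟨h2, h3⟩)
    · exact Or.inl (Or.inr zlt)
    · exact absurd hAB (by push Not; exact ⟨h3, h2⟩)
    · exact Or.inl le_rfl
    · exact Or.inl (Or.inr zlt)
    · exact Or.inr (Or.inr zlt)
    · exact Or.inr (Or.inr zlt)
    · exact Or.inl le_rfl

end path

end Pool.Agent.R126.Ix
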