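import Pool.Agent.R126.Ix.Glue

set_option autoImplicit false

namespace Pool.Agent.R126.Ix

open scoped BigOperators Topology
open Set

universe u v w

/-- `J` disjoint copies of the poset `P` and, for every choice `s : J → P`, a new maximal element
`top s` which lies above `s j` in the `j`-th copy for every `j`. -/
inductive Step (J : Type) (P : Type u) : Type u
  | copy : J → P → Step J P
  | top : (J → P) → Step J P

namespace Step

variable {J : Type} {P : Type u}

def equivSum (J : Type) (P : Type u) : Step J P ≃ (J × P) ⊕ (J → P) where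
  toFun
    | copy j x => Sum.inl (j, x)
    | top s => Sum.inr s
  invFun
    | Sum.inl p => copy p.1 p.2
    | Sum.inr s => top s
  left_inv z := by cases z <;> rfl
  right_inv z := by cases z <;> rfl

instance [Fintype J] [DecidableEq J] [Fintype P] : Fintype (Step J P) :=
  Fintype.ofEquiv _ (equivSum J P).symm

/-- the order relation -/
def le [LE P] : Step J P → Step J P → Prop
  | copy j x, copy j' y => j = j' ∧ x ≤ y
  | copy j x, top s => x ≤ s j
  | top s, top s' => s = s'
  | top _, copy _ _ => False

instance [PartialOrder P] : PartialOrder (Step J P) where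
  le := le
  le_refl z := by
    cases z with
    | copy j x => exact ⟨rfl, le_rfl⟩
    | top s => exact rfl
  le_trans a b c h1 h2 := by
    cases a with
    | copy j x =>
      cases b with
      | copy j' y =>
        obtain ⟨rfl, h1⟩ := h1
        cases c with
        | copy j'' z => exact ⟨h2.1, h1.trans h2.2⟩
        | top s => exact le_trans h1 h2
      | top s =>
        cases c with
        | copy j'' z => exact h2.elim
        | top s' =>
          have h2' : s = s' := h2
          rw [← h2']; exact h1
    | top s =>
      cases b with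
      | copy j' y => exact h1.elim
      | top s' =>
        have h1' : s = s' := h1
        rw [h1']; exact h2
  le_antisymm a b h1 h2 := by
    cases a with
    | copy j x =>
      cases b with
      | copy j' y =>
        obtain ⟨rfl, h1⟩ := h1
        rw [le_antisymm h1 h2.2]
      | top s => exact h2.elim
    | top s =>
      cases b with
      | copy j' y => exact h1.elim
      | top s' =>
        have h1' : s = s' := h1
        rw [h1']

theorem copy_le_copy [PartialOrder P] {j j' : J} {x y : P} :
    (copy j x : Step J P) ≤ copy j' y ↔ j = j' ∧ x ≤ y := Iff.rfl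

theorem copy_le_top [PartialOrder P] {j : J} {x : P} {s : J → P} :
    (copy j x : Step J P) ≤ top s ↔ x ≤ s j := Iff.rfl

theorem top_le_top [PartialOrder P] {s s' : J → P} :
    (top s : Step J P) ≤ top s' ↔ s = s' := Iff.rfl

theorem not_top_le_copy [PartialOrder P] {j : J} {x : P} {s : J → P} :
    ¬ (top s : Step J P) ≤ copy j x := fun h => h

variable {G : Type u} [Group G] [MulAction G P]

/-- the action -/
def sm (g : G) : Step J P → Step J P
  | copy j x => copy j (g • x)
  | top s => top (g • s)

instance : MulAction G (Step J P) where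
  smul := sm
  one_smul z := by
    cases z with
    | copy j x => show copy j ((1 : G) • x) = copy j x; rw [one_smul]
    | top s => show top ((1 : G) • s) = top s; rw [one_smul]
  mul_smul g h z := by
    cases z with
    | copy j x => show copy j ((g * h) • x) = copy j (g • h • x); rw [mul_smul]
    | top s => show top ((g * h) • s) = top (g • h • s); rw [mul_smul]

theorem smul_copy (g : G) (j : J) (x : P) : g • (copy j x : Step J P) = copy j (g • x) := rfl

theorem smul_top (g : G) (s : J → P) : g • (top s : Step J P) = top (g • s) := rfl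

instance [PartialOrder P] [IsGPoset G P] : IsGPoset G (Step J P) where
  smul_le g a b h := by
    cases a with
    | copy j x =>
      cases b with
      | copy j' y => exact ⟨h.1, IsGPoset.smul_le g h.2⟩
      | top s =>
        have h' : x ≤ s j := h
        have h'' := IsGPoset.smul_le g h'
        exact h''
    | top s =>
      cases b with
      | copy j' y => exact h.elim
      | top s' =>
        have h1' : s = s' := h
        rw [h1']

instance [IsFree G P] [Nonempty J] : IsFree G (Step J P) where
  eq_one g z h := by
    cases z with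
    | copy j x =>
      rw [smul_copy] at h
      injection h with h1 h2
      exact IsFree.eq_one g x h2
    | top s =>
      rw [smul_top] at h
      injection h with h1
      obtain ⟨j⟩ := ‹Nonempty J›
      exact IsFree.eq_one g (s j) (congrFun h1 j)

/-- upper bound for the cross-index -/
theorem xindLE [PartialOrder P] (j0 : J) {k : ℕ} (h : XindLE G P k) :
    XindLE G (Step J P) (k + 1) := by
  obtain ⟨ψ, hm, he⟩ := h
  refine ⟨fun z => match z with
    | copy _ x => QG.up (Nat.le_succ k) (ψ x)
    | top s => ⟨(ψ (s j0)).g, Fin.last (k + 1)⟩, ?_, ?_⟩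
  · intro a b hab
    cases a with
    | copy j x =>
      cases b with
      | copy j' y => exact QG.up_mono _ (hm hab.2)
      | top s =>
        right
        show (ψ x).lev.val < k + 1
        exact (ψ x).lev.2
    | top s =>
      cases b with
      | copy j' y => exact hab.elim
      | top s' =>
        have h1' : s = s' := hab
        rw [h1']
  · intro g z
    cases z with
    | copy j x =>
      show QG.up (Nat.le_succ k) (ψ (g • x)) = g • QG.up (Nat.le_succ k) (ψ x)
      rw [he, QG.up_smul]
    | top s =>
      show (⟨(ψ ((g • s) j0)).g, Fin.last (k + 1)⟩ : QG G (k + 1)) =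
        g • ⟨(ψ (s j0)).g, Fin.last (k + 1)⟩
      rw [Pi.smul_apply, he]
      rfl

end Step

section lower

variable {P : Type u} [PartialOrder P] {G : Type u} [Group G] [MulAction G P]

/-- A simplicial map to `E_k G` uses all levels if there is no map to a smaller one. -/
theorem all_levels [Nonempty P] {k : ℕ} (H : ∀ l, SindLE G (orderComplex P) l → k ≤ l)
    (f : P → QG G k) (hf : ∀ (g : G) x, f (g • x) = g • f x)
    (hc : ∀ x y, x ≤ y → f x ≤ f y ∨ f y ≤ f x) (g : G) (i : Fin (k + 1)) :
    ∃ x, f x = ⟨g, i⟩ := by
  by_cases hex : ∃ x, (f x).lev = i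
  · obtain ⟨x, hx⟩ := hex
    refine ⟨(g * (f x).g⁻¹) • x, ?_⟩
    rw [hf]
    ext
    · show g * (f x).g⁻¹ * (f x).g = g
      group
    · rw [QG.smul_lev, hx]
  · exfalso
    push Not at hex
    cases k with
    | zero =>
      obtain ⟨x⟩ := ‹Nonempty P›
      have := hex x
      exact this (Fin.ext (by omega))
    | succ k =>
      choose z hz using fun x => Fin.exists_succAbove_eq (hex x)
      have := H k (simpMap_iff.mpr ⟨fun x => ⟨(f x).g, z x⟩, ?_, ?_⟩)
      · omega
      · intro g x
        have h1 : z (g • x) = z x := by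
          apply Fin.succAbove_right_injective (p := i)
          rw [hz, hz, hf, QG.smul_lev]
        ext
        · show (f (g • x)).g = g * (f x).g
          rw [hf]; rfl
        · show (z (g • x)).val = (z x).val
          rw [h1]
      · intro x y hxy
        have key : ∀ x y, f x ≤ f y → (⟨(f x).g, z x⟩ : QG G k) ≤ ⟨(f y).g, z y⟩ := by
          intro x y h
          rcases h with h | h
          · left
            have h1 : z x = z y := by
              apply Fin.succAbove_right_injective (p := i)
              rw [hz, hz, h]
            rw [h, h1]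
          · right
            show z x < z y
            rw [← hz x, ← hz y] at h
            exact (Fin.succAbove_lt_succAbove_iff).mp h
        rcases hc x y hxy with h | h
        · exact Or.inl (key x y h)
        · exact Or.inr (key y x h)

/-- lower bound for the simplicial index -/
theorem step_lower [Nonempty P] [Nontrivial G] {k : ℕ}
    (H : ∀ l, SindLE G (orderComplex P) l → k ≤ l) (l : ℕ)
    (hl : SindLE G (orderComplex (Step (Fin (k + 1) × Bool) P)) l) : k + 1 ≤ l := by
  by_contra hlt
  push Not at hlt
  obtain ⟨f, hf, hc⟩ := simpMap_iff.mp (hl.mono (show l ≤ k by omega))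
  obtain ⟨h, hh⟩ := exists_ne (1 : G)
  have key : ∀ j : Fin (k + 1) × Bool, ∃ x : P, f (Step.copy j x) = ⟨bif j.2 then h else 1, j.1⟩ := by
    intro j
    exact all_levels H (fun x => f (Step.copy j x)) (fun g x => hf g (Step.copy j x))
      (fun x y hxy => hc _ _ (Step.copy_le_copy.mpr ⟨rfl, hxy⟩)) _ _
  choose s hs using key
  have hcomp : ∀ j, f (Step.copy j (s j)) ≤ f (Step.top s) ∨ f (Step.top s) ≤ f (Step.copy j (s j)) :=
    fun j => hc _ _ (Step.copy_le_top.mpr le_rfl)
  have h2 : ∀ (a b : QG G k), a.lev = b.lev → (a ≤ b ∨ b ≤ a) → a.g = b.g := by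
    intro a b hab h
    rcases h with (h | h) | (h | h)
    · rw [h]
    · exact absurd h (by rw [hab]; exact lt_irrefl _)
    · rw [h]
    · exact absurd h (by rw [hab]; exact lt_irrefl _)
  have h3 := hcomp ((f (Step.top s)).lev, false)
  have h4 := hcomp ((f (Step.top s)).lev, true)
  rw [hs] at h3 h4
  have h5 := h2 ⟨bif false then h else 1, (f (Step.top s)).lev⟩ (f (Step.top s)) rfl h3
  have h6 := h2 ⟨bif true then h else 1, (f (Step.top s)).lev⟩ (f (Step.top s)) rfl h4
  simp only [cond_false, cond_true] at h5 h6
  exact hh (h6.trans h5.symm)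

end lower

section index

variable {J : Type} [Fintype J] [DecidableEq J] {P : Type u} [Fintype P]

theorem sum_step (z : Step J P → ℝ) :
    ∑ v, z v = ∑ j, ∑ x, z (Step.copy j x) + ∑ s, z (Step.top s) := by
  rw [← Equiv.sum_comp (Step.equivSum J P).symm, Fintype.sum_sum_type, Fintype.sum_prod_type]
  rfl

/-- the total weight of the new elements -/
def tw (z : Step J P → ℝ) : ℝ := ∑ s, z (Step.top s)

/-- the contraction -/
noncomputable def wj (j : J) (z : Step J P → ℝ) : P → ℝ :=
  ((1 - 2 * tw z) / (1 - tw z)) • (fun x => z (Step.copy j x)) +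
    (2 : ℝ) • push (fun s : J → P => s j) (fun s => z (Step.top s))

theorem continuous_tw : Continuous (tw : (Step J P → ℝ) → ℝ) := by
  unfold tw
  fun_prop

theorem push_smul_const {V : Type*} {W : Type*} [Fintype V] (f : V → W) (c : ℝ) (x : V → ℝ) :
    push f (c • x) = c • push f x := by
  classical
  funext w
  simp only [push, Pi.smul_apply, smul_eq_mul, Finset.mul_sum]
  refine Finset.sum_congr rfl fun v _ => ?_
  split_ifs <;> simp

theorem push_zero' {V : Type*} {W : Type*} [Fintype V] (f : V → W) :
    push f (fun _ => (0 : ℝ)) = 0 := by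
  classical
  funext w
  simp [push]

variable [PartialOrder P] {G : Type u} [Group G] [Fintype G] [MulAction G P] [IsGPoset G P]

omit [Fintype G] [PartialOrder P] [IsGPoset G P] in
theorem tw_act (g : G) (z : Step J P → ℝ) : tw (act g z) = tw z := by
  unfold tw
  show ∑ s : J → P, z (g⁻¹ • Step.top s) = _
  exact Equiv.sum_comp (MulAction.toPerm g⁻¹ : (J → P) ≃ (J → P)) (fun s => z (Step.top s))

omit [Fintype G] [PartialOrder P] [IsGPoset G P] in
theorem wj_act (j : J) (g : G) (z : Step J P → ℝ) : wj j (act g z) = act g (wj j z) := by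
  unfold wj
  rw [act_add, act_smul, act_smul, tw_act, ← push_act (fun _ _ => rfl)]
  rfl

theorem step_index (j0 : J) {F : (P → ℝ) → (QG G 1 → ℝ)} (hF : OnMap G (orderComplex P) (EG G 1) F)
    {a : P → G} (ha : ∀ (g : G) x, a (g • x) = g * a x) (hFa : ∀ x, F (pt x) = pt ⟨a x, 0⟩) :
    ∃ (F' : (Step J P → ℝ) → (QG G 1 → ℝ)) (a' : Step J P → G),
      OnMap G (orderComplex (Step J P)) (EG G 1) F' ∧ (∀ (g : G) x, a' (g • x) = g * a' x) ∧
      ∀ x, F' (pt x) = pt ⟨a' x, 0⟩ := by
  classical
  -- basic facts about points of the realisation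
  have hR : ∀ z ∈ (orderComplex (Step J P)).real, (∀ v, 0 ≤ z v) ∧
      (∑ j, ∑ x, z (Step.copy j x) + tw z = 1) ∧ ∀ u v, z u ≠ 0 → z v ≠ 0 → u ≤ v ∨ v ≤ u := by
    intro z hz
    rw [mem_real_order, sum_step] at hz
    exact hz
  -- at most one top
  have htop : ∀ z ∈ (orderComplex (Step J P)).real, ∀ s s', z (Step.top s) ≠ 0 →
      z (Step.top s') ≠ 0 → s = s' := by
    intro z hz s s' hs hs'
    rcases (hR z hz).2.2 _ _ hs hs' with h | h
    · exact h
    · exact Eq.symm h
  have htw1 : ∀ z ∈ (orderComplex (Step J P)).real, ∀ s, z (Step.top s) ≠ 0 →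
      tw z = z (Step.top s) := by
    intro z hz s hs
    unfold tw
    refine Finset.sum_eq_single s (fun s' _ hne => ?_) (fun h => absurd (Finset.mem_univ _) h)
    by_contra h
    exact hne (htop z hz s' s h hs)
  -- mass of the copy `j`
  have hmass : ∀ z ∈ (orderComplex (Step J P)).real, ∀ j, (∀ j', j' ≠ j → ∀ x, z (Step.copy j' x) = 0) →
      ∑ x, z (Step.copy j x) = 1 - tw z := by
    intro z hz j hj
    have h1 := (hR z hz).2.1
    have h2 : ∑ j, ∑ x, z (Step.copy j x) = ∑ x, z (Step.copy j x) := by
      refine Finset.sum_eq_single j (fun j' _ hne => ?_) (fun h => absurd (Finset.mem_univ _) h)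
      exact Finset.sum_eq_zero fun x _ => hj j' hne x
    rw [h2] at h1
    linarith
  have hone : ∀ z ∈ (orderComplex (Step J P)).real, ∀ j j', j ≠ j' →
      (∀ i, i ≠ j → ∀ x, z (Step.copy i x) = 0) → (∀ i, i ≠ j' → ∀ x, z (Step.copy i x) = 0) →
      tw z = 1 := by
    intro z hz j j' hne h1 h2
    have h3 := hmass z hz j h1
    have h4 : ∑ x, z (Step.copy j x) = 0 := Finset.sum_eq_zero fun x _ => h2 j hne x
    rw [h4] at h3
    linarith
  have hex : ∀ z ∈ (orderComplex (Step J P)).real, ∃ j, ∀ j', j' ≠ j → ∀ x, z (Step.copy j' x) = 0 := by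
    intro z hz
    by_cases h : ∃ j x, z (Step.copy j x) ≠ 0
    · obtain ⟨j, x, hx⟩ := h
      refine ⟨j, fun j' hj' y => ?_⟩
      by_contra hy
      rcases (hR z hz).2.2 _ _ hx hy with h | h
      · exact hj' h.1.symm
      · exact hj' h.1
    · push Not at h
      exact ⟨j0, fun j' _ x => h j' x⟩
  have htwle : ∀ z ∈ (orderComplex (Step J P)).real, tw z ≤ 1 := by
    intro z hz
    have h1 := (hR z hz).2.1
    have h2 : 0 ≤ ∑ j, ∑ x, z (Step.copy j x) :=
      Finset.sum_nonneg fun j _ => Finset.sum_nonneg fun x _ => (hR z hz).1 _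
    linarith
  have htwle' : ∀ z ∈ (orderComplex (Step J P)).real, ∀ s, z (Step.top s) ≤ tw z := by
    intro z hz s
    exact Finset.single_le_sum (f := fun s => z (Step.top s)) (fun s _ => (hR z hz).1 _)
      (Finset.mem_univ s)
  -- the contraction
  have hwj : ∀ z ∈ (orderComplex (Step J P)).real, ∀ j, (∀ j', j' ≠ j → ∀ x, z (Step.copy j' x) = 0) →
      tw z ≤ 1 / 2 → wj j z ∈ (orderComplex P).real := by
    intro z hz j hj ht
    obtain ⟨h0, h1, h2⟩ := hR z hz
    rw [mem_real_order]
    have hc : 0 ≤ (1 - 2 * tw z) / (1 - tw z) := div_nonneg (by linarith) (by linarith)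
    refine ⟨fun x => ?_, ?_, ?_⟩
    · show 0 ≤ (1 - 2 * tw z) / (1 - tw z) * z (Step.copy j x) + 2 * push _ _ x
      have := push_nonneg (f := fun s : J → P => s j) (x := fun s => z (Step.top s))
        (fun s => h0 _) x
      have := h0 (Step.copy j x)
      positivity
    · show ∑ x, ((1 - 2 * tw z) / (1 - tw z) * z (Step.copy j x) + 2 * push _ _ x) = 1
      rw [Finset.sum_add_distrib, ← Finset.mul_sum, ← Finset.mul_sum, sum_push, hmass z hz j hj]
      have : ∑ s, z (Step.top s) = tw z := rfl
      rw [this, div_mul_cancel₀ _ (by linarith)]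
      ring
    · have key : ∀ x, wj j z x ≠ 0 → z (Step.copy j x) ≠ 0 ∨ ∃ s : J → P, s j = x ∧ z (Step.top s) ≠ 0 := by
        intro x hx
        by_contra hcon
        push Not at hcon
        apply hx
        show (1 - 2 * tw z) / (1 - tw z) * z (Step.copy j x) + 2 * push _ _ x = 0
        rw [hcon.1, mul_zero, zero_add]
        have : push (fun s : J → P => s j) (fun s => z (Step.top s)) x = 0 := by
          by_contra h
          obtain ⟨s, hs1, hs2⟩ := push_ne_zero h
          exact hs2 (hcon.2 s hs1)
        rw [this, mul_zero]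
      intro u v hu hv
      rcases key u hu with hu | ⟨s, rfl, hs⟩
      · rcases key v hv with hv | ⟨s', rfl, hs'⟩
        · rcases h2 _ _ hu hv with h | h
          · exact Or.inl h.2
          · exact Or.inr h.2
        · rcases h2 _ _ hu hs' with h | h
          · exact Or.inl h
          · exact h.elim
      · rcases key v hv with hv | ⟨s', rfl, hs'⟩
        · rcases h2 _ _ hs hv with h | h
          · exact h.elim
          · exact Or.inr h
        · rw [htop z hz s s' hs hs']
          exact Or.inl le_rfl
  have hwjc : ∀ j, ContinuousOn (wj j : (Step J P → ℝ) → (P → ℝ)) {z | tw z ≤ 1 / 2} := by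
    intro j
    have ht := (continuous_tw (J := J) (P := P))
    have h1 : ContinuousOn (fun z : Step J P → ℝ => (1 - 2 * tw z) / (1 - tw z)) {z | tw z ≤ 1 / 2} := by
      refine ContinuousOn.div (by fun_prop) (by fun_prop) ?_
      intro z hz
      have : tw z ≤ 1 / 2 := hz
      linarith
    have h2 : Continuous (fun z : Step J P → ℝ => push (fun s : J → P => s j) (fun s => z (Step.top s))) :=
      (continuous_push _).comp (by fun_prop)
    have h3 : Continuous (fun z : Step J P → ℝ => fun x => z (Step.copy j x)) := by fun_prop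
    exact (h1.smul h3.continuousOn).add (h2.const_smul (2 : ℝ)).continuousOn
  -- the pieces
  let C : J ⊕ (J × (J → P)) → Set (Step J P → ℝ) := fun i => match i with
    | Sum.inl j => {z | tw z ≤ 1 / 2 ∧ ∀ j', j' ≠ j → ∀ x, z (Step.copy j' x) = 0}
    | Sum.inr (j, s) => {z | 1 / 2 ≤ z (Step.top s) ∧ ∀ j', j' ≠ j → ∀ x, z (Step.copy j' x) = 0}
  let f : J ⊕ (J × (J → P)) → (Step J P → ℝ) → (QG G 1 → ℝ) := fun i => match i with
    | Sum.inl j => fun z => F (wj j z)
    | Sum.inr (j, s) => fun z => gam (a (s j)) (a (s j0)) (2 * z (Step.top s) - 1)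
  have hclosed0 : ∀ j, IsClosed {z : Step J P → ℝ | ∀ j', j' ≠ j → ∀ x, z (Step.copy j' x) = 0} := by
    intro j
    simp only [ofPred_forall]
    exact isClosed_iInter fun j' => isClosed_iInter fun _ => isClosed_iInter fun x =>
      isClosed_eq (continuous_apply _) continuous_const
  obtain ⟨F', hF', hval⟩ := glueMap (G := G) (K := orderComplex (Step J P)) (L := EG G 1) C
    (by
      rintro (j | ⟨j, s⟩)
      · exact (isClosed_le continuous_tw continuous_const).inter (hclosed0 j)
      · exact (isClosed_le continuous_const (continuous_apply _)).inter (hclosed0 j))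
    f
    (by
      intro z hz
      obtain ⟨j, hj⟩ := hex z hz
      by_cases ht : tw z ≤ 1 / 2
      · exact ⟨Sum.inl j, ht, hj⟩
      · have h1 : tw z ≠ 0 := by intro h; rw [h] at ht; norm_num at ht
        obtain ⟨s, -, hs⟩ := Finset.exists_ne_zero_of_sum_ne_zero h1
        refine ⟨Sum.inr (j, s), ?_, hj⟩
        rw [← htw1 z hz s hs]
        push Not at ht
        exact ht.le)
    (by
      rintro (j | ⟨j, s⟩)
      · exact hF.cont.comp ((hwjc j).mono fun z hz => hz.2.1) fun z hz => hwj z hz.1 j hz.2.2 hz.2.1
      · exact ((continuous_gam _ _).comp (by fun_prop)).continuousOn)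
    (by
      rintro (j | ⟨j, s⟩) z hz hzc
      · exact hF.maps _ (hwj z hz j hzc.2 hzc.1)
      · have h1 : 1 / 2 ≤ z (Step.top s) := hzc.1
        have h2 := htwle z hz
        have h3 := htwle' z hz s
        exact gam_mem _ _ (by linarith) (by linarith))
    (by
      -- agreement
      have hA : ∀ j j' s, ∀ z ∈ (orderComplex (Step J P)).real, z ∈ C (Sum.inl j) →
          z ∈ C (Sum.inr (j', s)) → f (Sum.inl j) z = f (Sum.inr (j', s)) z := by
        intro j j' s z hz h1 h2
        have h3 : 1 / 2 ≤ z (Step.top s) := h2.1
        have h4 : tw z ≤ 1 / 2 := h1.1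
        have h5 := htwle' z hz s
        have h6 : tw z = 1 / 2 := by linarith
        have h7 : z (Step.top s) = 1 / 2 := by linarith
        have hjj : j = j' := by
          by_contra hne
          have := hone z hz j j' hne h1.2 h2.2
          rw [this] at h6
          norm_num at h6
        subst hjj
        show F (wj j z) = gam (a (s j)) (a (s j0)) (2 * z (Step.top s) - 1)
        have h8 : (2 : ℝ) * z (Step.top s) - 1 = 0 := by rw [h7]; norm_num
        rw [h8, gam_zero, ← hFa]
        congr 1
        unfold wj
        have h9 : (1 - 2 * tw z) / (1 - tw z) = 0 := by rw [h6]; norm_num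
        have h10 : (fun s' => z (Step.top s')) = (1 / 2 : ℝ) • pt s := by
          funext s'
          by_cases hs : s' = s
          · rw [hs, Pi.smul_apply, pt_self, h7]; simp
          · rw [Pi.smul_apply, pt_ne hs, smul_zero]
            by_contra hne
            exact hs (htop z hz s' s hne (by rw [h7]; norm_num))
        rw [h9, zero_smul, zero_add, h10, push_smul_const, push_pt, smul_smul]
        norm_num
      rintro (j | ⟨j, s⟩) (j' | ⟨j', s'⟩) z hz h1 h2
      · by_cases hjj : j = j'
        · rw [hjj]
        · have := hone z hz j j' hjj h1.2 h2.2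
          have h3 : tw z ≤ 1 / 2 := h1.1
          rw [this] at h3
          norm_num at h3
      · exact hA _ _ _ z hz h1 h2
      · exact (hA _ _ _ z hz h2 h1).symm
      · have h3 : 1 / 2 ≤ z (Step.top s) := h1.1
        have h4 : 1 / 2 ≤ z (Step.top s') := h2.1
        have hss : s = s' := htop z hz s s' (by intro h; rw [h] at h3; norm_num at h3)
          (by intro h; rw [h] at h4; norm_num at h4)
        subst hss
        by_cases hjj : j = j'
        · rw [hjj]
        · have h5 := hone z hz j j' hjj h1.2 h2.2
          have h6 := htw1 z hz s (by intro h; rw [h] at h3; norm_num at h3)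
          show gam (a (s j)) (a (s j0)) (2 * z (Step.top s) - 1) =
            gam (a (s j')) (a (s j0)) (2 * z (Step.top s) - 1)
          rw [← h6, h5]
          have : (2 : ℝ) * 1 - 1 = 1 := by norm_num
          rw [this, gam_one, gam_one])
    (by
      rintro g (j | ⟨j, s⟩) z hz hzc
      · refine ⟨Sum.inl j, ⟨?_, fun j' hj' x => hzc.2 j' hj' _⟩, ?_⟩
        · rw [tw_act]; exact hzc.1
        · show F (wj j (act g z)) = act g (F (wj j z))
          rw [wj_act, hF.equi g _ (hwj z hz j hzc.2 hzc.1)]
      · have e1 : act g z (Step.top (g • s)) = z (Step.top s) := by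
          show z (g⁻¹ • Step.top (g • s)) = _
          rw [Step.smul_top, inv_smul_smul]
        refine ⟨Sum.inr (j, g • s), ⟨?_, fun j' hj' x => hzc.2 j' hj' _⟩, ?_⟩
        · rw [e1]; exact hzc.1
        · show gam (a ((g • s) j)) (a ((g • s) j0)) (2 * act g z (Step.top (g • s)) - 1) =
            act g (gam (a (s j)) (a (s j0)) (2 * z (Step.top s) - 1))
          rw [e1, act_gam, Pi.smul_apply, Pi.smul_apply, ha, ha])
  refine ⟨F', fun z => match z with
    | Step.copy _ x => a x
    | Step.top s => a (s j0), hF', ?_, ?_⟩
  · intro g z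
    cases z with
    | copy j x => exact ha g x
    | top s => exact ha g (s j0)
  · intro z
    have hz := pt_mem_order z
    cases z with
    | copy j x =>
      have h1 : tw (pt (Step.copy j x : Step J P)) = 0 := by
        refine Finset.sum_eq_zero fun s _ => pt_ne ?_
        intro h; cases h
      have h2 : pt (Step.copy j x : Step J P) ∈ C (Sum.inl j) := by
        refine ⟨?_, fun j' hj' y => pt_ne ?_⟩
        · rw [h1]; norm_num
        · intro h; injection h with h3 h4; exact hj' h3
      rw [hval (Sum.inl j) _ hz h2]
      show F (wj j _) = pt ⟨a x, 0⟩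
      rw [← hFa]
      congr 1
      unfold wj
      have h3 : (fun s : J → P => pt (Step.copy j x : Step J P) (Step.top s)) = fun _ => (0 : ℝ) := by
        funext s
        exact pt_ne (by intro h; cases h)
      have h4 : (fun y => pt (Step.copy j x : Step J P) (Step.copy j y)) = pt x := by
        funext y
        by_cases hy : y = x
        · rw [hy, pt_self, pt_self]
        · rw [pt_ne hy, pt_ne]
          intro h; injection h with h3 h4; exact hy h4
      rw [h1, h3, h4, push_zero']
      norm_num
    | top s =>
      have h2 : pt (Step.top s : Step J P) ∈ C (Sum.inr (j0, s)) := by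
        refine ⟨?_, fun j' hj' y => pt_ne ?_⟩
        · rw [pt_self]; norm_num
        · intro h; cases h
      rw [hval (Sum.inr (j0, s)) _ hz h2]
      show gam (a (s j0)) (a (s j0)) (2 * pt (Step.top s : Step J P) (Step.top s) - 1) = _
      rw [pt_self]
      have : (2 : ℝ) * 1 - 1 = 1 := by norm_num
      rw [this, gam_one]

end index

end Pool.Agent.R126.Ix
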